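import Pool.Agent.Work.MP_b30479_gt.VOL.Ph

/-!
# The ring function near the regular ideal octahedron
-/

namespace Pool.Agent.Work.MP_b30479_gt.VOL

set_option linter.unusedSimpArgs false

open Complex Set

/-- the ring function: `-2F(1/2-α) - F(α-ζ) - F(α+ζ)` -/
noncomputable def Rc (α ζ : ℂ) : ℂ := -2 * Fh (1 / 2 - α) - Fh (α - ζ) - Fh (α + ζ)

/-- its derivative in `α` -/
noncomputable def Ra (α ζ : ℂ) : ℂ := 2 * ph (1 / 2 - α) - ph (α - ζ) - ph (α + ζ)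

/-- its derivative in `ζ` -/
noncomputable def Rz (α ζ : ℂ) : ℂ := ph (α - ζ) - ph (α + ζ)

/-- the closed disc of radius `1/100` around `1/4` -/
def disc : Set ℂ := Metric.closedBall (1 / 4) (1 / 100)

lemma disc_re {w : ℂ} (hw : w ∈ disc) : 24 / 100 ≤ w.re ∧ w.re ≤ 26 / 100 := by
  have h1 : ‖w - 1 / 4‖ ≤ 1 / 100 := by
    rw [← dist_eq_norm]
    exact hw
  have h2 := (Complex.abs_re_le_norm (w - 1 / 4)).trans h1
  have e : (w - 1 / 4 : ℂ).re = w.re - 1 / 4 := by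
    simp [Complex.sub_re]
  rw [e, abs_le] at h2
  constructor <;> linarith only [h2, h2.1, h2.2]

lemma disc_strip {w : ℂ} (hw : w ∈ disc) : w ∈ strip := by
  have := disc_re hw
  exact ⟨by linarith only [this, this.1], by linarith only [this, this.2]⟩

lemma disc_convex : Convex ℝ disc := convex_closedBall _ _

lemma quarter_mem : (1 / 4 : ℂ) ∈ disc := Metric.mem_closedBall_self (by norm_num)

/-- second derivative of `ph` -/
lemma hasDerivAt_ph' {w : ℂ} (hw : w ∈ strip) :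
    HasDerivAt ph' (-(Real.pi ^ 2 / Complex.sin (Real.pi * w) ^ 2)) w := by
  have hs := sin_pi_ne hw
  have h1 : HasDerivAt (fun z : ℂ => Complex.sin (Real.pi * z))
      (Complex.cos (Real.pi * w) * (Real.pi * 1)) w :=
    ((hasDerivAt_id w).const_mul (Real.pi : ℂ)).csin
  have h2 : HasDerivAt (fun z : ℂ => Real.pi * Complex.cos (Real.pi * z))
      (Real.pi * (-Complex.sin (Real.pi * w) * (Real.pi * 1))) w :=
    (((hasDerivAt_id w).const_mul (Real.pi : ℂ)).ccos).const_mul _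
  have h3 := h2.div h1 hs
  have e : (Real.pi * (-Complex.sin (Real.pi * w) * (Real.pi * 1)) * Complex.sin (Real.pi * w) -
      Real.pi * Complex.cos (Real.pi * w) * (Complex.cos (Real.pi * w) * (Real.pi * 1))) /
        Complex.sin (Real.pi * w) ^ 2 = -(Real.pi ^ 2 / Complex.sin (Real.pi * w) ^ 2) := by
    have h4 := Complex.sin_sq_add_cos_sq (Real.pi * w)
    rw [← neg_div]
    congr 1
    linear_combination (-(Real.pi : ℂ) ^ 2) * h4
  rw [← e]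
  exact h3

lemma ph'_quarter : ph' (1 / 4) = Real.pi := by
  unfold ph'
  have e : (Real.pi : ℂ) * (1 / 4) = ((Real.pi / 4 : ℝ) : ℂ) := by
    push_cast
    ring
  rw [e, ← Complex.ofReal_cos, ← Complex.ofReal_sin, Real.cos_pi_div_four, Real.sin_pi_div_four]
  have : (((√2 / 2 : ℝ)) : ℂ) ≠ 0 := by
    have h : (√2 / 2 : ℝ) ≠ 0 := by positivity
    exact_mod_cast h
  field_simp

lemma sin_lower {w : ℂ} (hw : w ∈ disc) : 48 / 100 ≤ ‖Complex.sin (Real.pi * w)‖ := by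
  have h1 := disc_re hw
  have hpi := Real.pi_pos
  have h2 : (Complex.sin (Real.pi * w)).re ≤ ‖Complex.sin (Real.pi * w)‖ :=
    Complex.re_le_norm _
  rw [sin_pi_re] at h2
  have h3 := Real.mul_le_sin (x := Real.pi * w.re) (by nlinarith only [hpi, h1]) (by nlinarith only [hpi, h1])
  have e : 2 / Real.pi * (Real.pi * w.re) = 2 * w.re := by field_simp
  rw [e] at h3
  have h4 := Real.one_le_cosh (Real.pi * w.im)
  nlinarith only [h1, h2, h3, h4, h1.1]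

lemma ph'_near {w : ℂ} (hw : w ∈ disc) : ‖ph' w - Real.pi‖ ≤ Real.pi / 4 := by
  have hpi := Real.pi_pos
  have h1 := disc_convex.norm_image_sub_le_of_norm_hasDerivWithin_le (𝕜 := ℂ) (f := ph')
    (f' := fun v => -(Real.pi ^ 2 / Complex.sin (Real.pi * v) ^ 2))
    (C := Real.pi ^ 2 / (48 / 100) ^ 2) (x := 1 / 4) (y := w)
    (fun v hv => (hasDerivAt_ph' (disc_strip hv)).hasDerivWithinAt)
    (fun v hv => by
      rw [norm_neg, norm_div, norm_pow, norm_pow, Complex.norm_real,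
        Real.norm_of_nonneg hpi.le]
      have := sin_lower hv
      gcongr)
    quarter_mem hw
  rw [ph'_quarter] at h1
  have h2 : ‖w - 1 / 4‖ ≤ 1 / 100 := by
    rw [← dist_eq_norm]
    exact hw
  refine h1.trans ?_
  have h3 : Real.pi ^ 2 / (48 / 100) ^ 2 * ‖w - 1 / 4‖ ≤
      Real.pi ^ 2 / (48 / 100) ^ 2 * (1 / 100) :=
    mul_le_mul_of_nonneg_left h2 (by positivity)
  refine h3.trans ?_
  have h4 := Real.pi_lt_d2
  have h5 : Real.pi ^ 2 ≤ 3.15 * Real.pi := by nlinarith only [hpi, h4]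
  have h6 : Real.pi ^ 2 / (48 / 100) ^ 2 * (1 / 100) = Real.pi ^ 2 * (100 / 2304) := by ring
  rw [h6]
  linarith only [hpi, h5]

/-- the nonlinear part of `ph` -/
noncomputable def eh (w : ℂ) : ℂ := ph w - Real.pi * w

lemma eh_lip {w w' : ℂ} (hw : w ∈ disc) (hw' : w' ∈ disc) :
    ‖eh w' - eh w‖ ≤ Real.pi / 4 * ‖w' - w‖ := by
  apply disc_convex.norm_image_sub_le_of_norm_hasDerivWithin_le (𝕜 := ℂ) (f := eh)
    (f' := fun v => ph' v - Real.pi) (fun v hv => ?_) (fun v hv => ph'_near hv) hw hw'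
  have h1 : HasDerivAt (fun z : ℂ => (Real.pi : ℂ) * z) (Real.pi * 1) v :=
    (hasDerivAt_id v).const_mul _
  have h2 := (hasDerivAt_ph (disc_strip hv)).fun_sub h1
  rw [mul_one] at h2
  exact h2.hasDerivWithinAt

/-- radius of the polydisc -/
def cb (c : ℂ) : Set ℂ := Metric.closedBall c (1 / 200)

lemma cb_disc1 {α : ℂ} (hα : α ∈ cb (1 / 4)) : 1 / 2 - α ∈ disc := by
  have h1 : ‖α - 1 / 4‖ ≤ 1 / 200 := by
    rw [← dist_eq_norm]
    exact hα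
  change dist (1 / 2 - α) (1 / 4) ≤ 1 / 100
  rw [dist_eq_norm]
  have e : (1 / 2 - α - 1 / 4 : ℂ) = -(α - 1 / 4) := by ring
  rw [e, norm_neg]
  linarith only [h1]

lemma cb_disc2 {α ζ : ℂ} (hα : α ∈ cb (1 / 4)) (hζ : ζ ∈ cb 0) : α - ζ ∈ disc := by
  have h1 : ‖α - 1 / 4‖ ≤ 1 / 200 := by
    rw [← dist_eq_norm]
    exact hα
  have h2 : ‖ζ‖ ≤ 1 / 200 := by
    have : dist ζ 0 ≤ 1 / 200 := hζ
    rwa [dist_zero_right] at this
  change dist (α - ζ) (1 / 4) ≤ 1 / 100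
  rw [dist_eq_norm]
  have e : (α - ζ - 1 / 4 : ℂ) = (α - 1 / 4) - ζ := by ring
  rw [e]
  have := norm_sub_le (α - 1 / 4) ζ
  linarith only [h1, h2, this]

lemma cb_disc3 {α ζ : ℂ} (hα : α ∈ cb (1 / 4)) (hζ : ζ ∈ cb 0) : α + ζ ∈ disc := by
  have h1 : ‖α - 1 / 4‖ ≤ 1 / 200 := by
    rw [← dist_eq_norm]
    exact hα
  have h2 : ‖ζ‖ ≤ 1 / 200 := by
    have : dist ζ 0 ≤ 1 / 200 := hζ
    rwa [dist_zero_right] at this
  change dist (α + ζ) (1 / 4) ≤ 1 / 100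
  rw [dist_eq_norm]
  have e : (α + ζ - 1 / 4 : ℂ) = (α - 1 / 4) + ζ := by ring
  rw [e]
  have := norm_add_le (α - 1 / 4) ζ
  linarith only [h1, h2, this]

lemma Rz_eq (α ζ : ℂ) : Rz α ζ = -2 * Real.pi * ζ + (eh (α - ζ) - eh (α + ζ)) := by
  unfold Rz eh
  ring

lemma Ra_eq (α ζ : ℂ) : Ra α ζ = -4 * Real.pi * (α - 1 / 4) +
    (2 * eh (1 / 2 - α) - eh (α - ζ) - eh (α + ζ)) := by
  unfold Ra eh
  ring

lemma Rz_zero (α : ℂ) : Rz α 0 = 0 := by
  unfold Rz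
  simp

lemma Ra_quarter : Ra (1 / 4) 0 = 0 := by
  unfold Ra
  rw [show (1 / 2 - 1 / 4 : ℂ) = 1 / 4 by norm_num]
  simp only [sub_zero, add_zero]
  ring

/-- Lipschitz bound of `Rz` -/
lemma Rz_lip {α ζ α' ζ' : ℂ} (hα : α ∈ cb (1 / 4)) (hζ : ζ ∈ cb 0) (hα' : α' ∈ cb (1 / 4))
    (hζ' : ζ' ∈ cb 0) {d : ℝ} (h1 : ‖α' - α‖ ≤ d) (h2 : ‖ζ' - ζ‖ ≤ d) :
    ‖Rz α' ζ' - Rz α ζ‖ ≤ 3 * Real.pi * d := by
  have hpi := Real.pi_pos
  have b1 := eh_lip (cb_disc2 hα hζ) (cb_disc2 hα' hζ')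
  have b2 := eh_lip (cb_disc3 hα hζ) (cb_disc3 hα' hζ')
  have c1 : ‖α' - ζ' - (α - ζ)‖ ≤ 2 * d := by
    have e : α' - ζ' - (α - ζ) = (α' - α) - (ζ' - ζ) := by ring
    rw [e]
    have := norm_sub_le (α' - α) (ζ' - ζ)
    linarith only [h1, h2, this]
  have c2 : ‖α' + ζ' - (α + ζ)‖ ≤ 2 * d := by
    have e : α' + ζ' - (α + ζ) = (α' - α) + (ζ' - ζ) := by ring
    rw [e]
    have := norm_add_le (α' - α) (ζ' - ζ)
    linarith only [h1, h2, this]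
  have d1 : ‖eh (α' - ζ') - eh (α - ζ)‖ ≤ Real.pi / 2 * d := by
    refine b1.trans ?_
    have := mul_le_mul_of_nonneg_left c1 (by positivity : 0 ≤ Real.pi / 4)
    linarith only [this]
  have d2 : ‖eh (α' + ζ') - eh (α + ζ)‖ ≤ Real.pi / 2 * d := by
    refine b2.trans ?_
    have := mul_le_mul_of_nonneg_left c2 (by positivity : 0 ≤ Real.pi / 4)
    linarith only [this]
  have e : Rz α' ζ' - Rz α ζ = -2 * Real.pi * (ζ' - ζ) +
      ((eh (α' - ζ') - eh (α - ζ)) - (eh (α' + ζ') - eh (α + ζ))) := by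
    rw [Rz_eq, Rz_eq]
    ring
  rw [e]
  have d3 : ‖(-2 * Real.pi * (ζ' - ζ) : ℂ)‖ ≤ 2 * Real.pi * d := by
    rw [norm_mul, norm_mul, norm_neg, Complex.norm_ofNat, Complex.norm_real,
      Real.norm_of_nonneg hpi.le]
    exact mul_le_mul_of_nonneg_left h2 (by positivity)
  have d4 := norm_add_le (-2 * Real.pi * (ζ' - ζ) : ℂ)
    ((eh (α' - ζ') - eh (α - ζ)) - (eh (α' + ζ') - eh (α + ζ)))
  have d5 := norm_sub_le (eh (α' - ζ') - eh (α - ζ)) (eh (α' + ζ') - eh (α + ζ))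
  linarith only [d1, d2, d3, d4, d5]

/-- Lipschitz bound of the nonlinear part of `Ra` -/
lemma Ra_lip {α ζ α' ζ' : ℂ} (hα : α ∈ cb (1 / 4)) (hζ : ζ ∈ cb 0) (hα' : α' ∈ cb (1 / 4))
    (hζ' : ζ' ∈ cb 0) {d : ℝ} (h1 : ‖α' - α‖ ≤ d) (h2 : ‖ζ' - ζ‖ ≤ d) :
    ‖(Ra α' ζ' + 4 * Real.pi * α') - (Ra α ζ + 4 * Real.pi * α)‖ ≤ 3 / 2 * Real.pi * d := by
  have hpi := Real.pi_pos
  have b0 := eh_lip (cb_disc1 hα) (cb_disc1 hα')
  have b1 := eh_lip (cb_disc2 hα hζ) (cb_disc2 hα' hζ')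
  have b2 := eh_lip (cb_disc3 hα hζ) (cb_disc3 hα' hζ')
  have c0 : ‖1 / 2 - α' - (1 / 2 - α)‖ ≤ d := by
    have e : 1 / 2 - α' - (1 / 2 - α) = -(α' - α) := by ring
    rw [e, norm_neg]
    exact h1
  have c1 : ‖α' - ζ' - (α - ζ)‖ ≤ 2 * d := by
    have e : α' - ζ' - (α - ζ) = (α' - α) - (ζ' - ζ) := by ring
    rw [e]
    have := norm_sub_le (α' - α) (ζ' - ζ)
    linarith only [h1, h2, this]
  have c2 : ‖α' + ζ' - (α + ζ)‖ ≤ 2 * d := by
    have e : α' + ζ' - (α + ζ) = (α' - α) + (ζ' - ζ) := by ring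
    rw [e]
    have := norm_add_le (α' - α) (ζ' - ζ)
    linarith only [h1, h2, this]
  have d0 : ‖eh (1 / 2 - α') - eh (1 / 2 - α)‖ ≤ Real.pi / 4 * d := by
    refine b0.trans ?_
    exact mul_le_mul_of_nonneg_left c0 (by positivity : 0 ≤ Real.pi / 4)
  have d1 : ‖eh (α' - ζ') - eh (α - ζ)‖ ≤ Real.pi / 2 * d := by
    refine b1.trans ?_
    have := mul_le_mul_of_nonneg_left c1 (by positivity : 0 ≤ Real.pi / 4)
    linarith only [this]
  have d2 : ‖eh (α' + ζ') - eh (α + ζ)‖ ≤ Real.pi / 2 * d := by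
    refine b2.trans ?_
    have := mul_le_mul_of_nonneg_left c2 (by positivity : 0 ≤ Real.pi / 4)
    linarith only [this]
  have e : (Ra α' ζ' + 4 * Real.pi * α') - (Ra α ζ + 4 * Real.pi * α) =
      2 * (eh (1 / 2 - α') - eh (1 / 2 - α)) -
      ((eh (α' - ζ') - eh (α - ζ)) + (eh (α' + ζ') - eh (α + ζ))) := by
    rw [Ra_eq, Ra_eq]
    ring
  rw [e]
  have d3 : ‖2 * (eh (1 / 2 - α') - eh (1 / 2 - α))‖ ≤ 2 * (Real.pi / 4 * d) := by
    rw [norm_mul, Complex.norm_ofNat]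
    exact mul_le_mul_of_nonneg_left d0 (by norm_num)
  have d4 := norm_sub_le (2 * (eh (1 / 2 - α') - eh (1 / 2 - α)))
    ((eh (α' - ζ') - eh (α - ζ)) + (eh (α' + ζ') - eh (α + ζ)))
  have d5 := norm_add_le (eh (α' - ζ') - eh (α - ζ)) (eh (α' + ζ') - eh (α + ζ))
  linarith only [d1, d2, d3, d4, d5]

end Pool.Agent.Work.MP_b30479_gt.VOL
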