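import Mathlib

/-!
# The function `ph z = log (2 sin (π z))` on the strip `0 < re z < 1`, and its primitive
-/

namespace Pool.Agent.Work.MP_b30479_gt.VOL

set_option linter.unusedSimpArgs false

open Complex Set MeasureTheory

/-- the open strip `0 < re z < 1` -/
def strip : Set ℂ := {z | 0 < z.re ∧ z.re < 1}

lemma strip_open : IsOpen strip := by
  have h1 : IsOpen {z : ℂ | 0 < z.re} := isOpen_lt continuous_const Complex.continuous_re
  have h2 : IsOpen {z : ℂ | z.re < 1} := isOpen_lt Complex.continuous_re continuous_const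
  exact h1.inter h2

lemma strip_convex : Convex ℝ strip := by
  have h1 : Convex ℝ {z : ℂ | 0 < z.re} := convex_halfSpace_re_gt 0
  have h2 : Convex ℝ {z : ℂ | z.re < 1} := convex_halfSpace_re_lt 1
  exact h1.inter h2

/-- `log (2 sin (π z))` -/
noncomputable def ph (z : ℂ) : ℂ := Complex.log (2 * Complex.sin (Real.pi * z))

lemma sin_pi_re (z : ℂ) :
    (Complex.sin (Real.pi * z)).re = Real.sin (Real.pi * z.re) * Real.cosh (Real.pi * z.im) := by
  have e : (Real.pi : ℂ) * z = ((Real.pi * z.re : ℝ) : ℂ) + ((Real.pi * z.im : ℝ) : ℂ) * I := by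
    apply Complex.ext <;> simp
  rw [e, Complex.sin_add_mul_I, ← Complex.ofReal_sin, ← Complex.ofReal_cosh,
    ← Complex.ofReal_cos, ← Complex.ofReal_sinh]
  simp only [add_re, add_im, mul_re, mul_im, sub_re, sub_im, ofReal_re, ofReal_im, I_re, I_im]
  ring

lemma sin_pi_im (z : ℂ) :
    (Complex.sin (Real.pi * z)).im = Real.cos (Real.pi * z.re) * Real.sinh (Real.pi * z.im) := by
  have e : (Real.pi : ℂ) * z = ((Real.pi * z.re : ℝ) : ℂ) + ((Real.pi * z.im : ℝ) : ℂ) * I := by
    apply Complex.ext <;> simp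
  rw [e, Complex.sin_add_mul_I, ← Complex.ofReal_sin, ← Complex.ofReal_cosh,
    ← Complex.ofReal_cos, ← Complex.ofReal_sinh]
  simp only [add_re, add_im, mul_re, mul_im, sub_re, sub_im, ofReal_re, ofReal_im, I_re, I_im]
  ring

lemma cos_pi_re (z : ℂ) :
    (Complex.cos (Real.pi * z)).re = Real.cos (Real.pi * z.re) * Real.cosh (Real.pi * z.im) := by
  have e : (Real.pi : ℂ) * z = ((Real.pi * z.re : ℝ) : ℂ) + ((Real.pi * z.im : ℝ) : ℂ) * I := by
    apply Complex.ext <;> simp
  rw [e, Complex.cos_add_mul_I, ← Complex.ofReal_sin, ← Complex.ofReal_cosh,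
    ← Complex.ofReal_cos, ← Complex.ofReal_sinh]
  simp only [add_re, add_im, mul_re, mul_im, sub_re, sub_im, ofReal_re, ofReal_im, I_re, I_im]
  ring

lemma cos_pi_im (z : ℂ) :
    (Complex.cos (Real.pi * z)).im = -(Real.sin (Real.pi * z.re) * Real.sinh (Real.pi * z.im)) := by
  have e : (Real.pi : ℂ) * z = ((Real.pi * z.re : ℝ) : ℂ) + ((Real.pi * z.im : ℝ) : ℂ) * I := by
    apply Complex.ext <;> simp
  rw [e, Complex.cos_add_mul_I, ← Complex.ofReal_sin, ← Complex.ofReal_cosh,
    ← Complex.ofReal_cos, ← Complex.ofReal_sinh]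
  simp only [add_re, add_im, mul_re, mul_im, sub_re, sub_im, ofReal_re, ofReal_im, I_re, I_im]
  ring

lemma sin_pi_pos {x : ℝ} (h0 : 0 < x) (h1 : x < 1) : 0 < Real.sin (Real.pi * x) := by
  have := Real.pi_pos
  apply Real.sin_pos_of_pos_of_lt_pi
  · positivity
  · nlinarith only [h1, this]

lemma sin_pi_re_pos {z : ℂ} (hz : z ∈ strip) : 0 < (Complex.sin (Real.pi * z)).re := by
  rw [sin_pi_re]
  exact mul_pos (sin_pi_pos hz.1 hz.2) (Real.cosh_pos _)

lemma sin_pi_ne {z : ℂ} (hz : z ∈ strip) : Complex.sin (Real.pi * z) ≠ 0 := by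
  intro h
  have := sin_pi_re_pos hz
  rw [h] at this
  simp at this

lemma two_sin_slit {z : ℂ} (hz : z ∈ strip) : 2 * Complex.sin (Real.pi * z) ∈ slitPlane := by
  rw [Complex.mem_slitPlane_iff]
  left
  have := sin_pi_re_pos hz
  have e : (2 * Complex.sin (Real.pi * z)).re = 2 * (Complex.sin (Real.pi * z)).re := by
    simp
  rw [e]
  linarith only [this]

lemma exp_ph {z : ℂ} (hz : z ∈ strip) : Complex.exp (ph z) = 2 * Complex.sin (Real.pi * z) :=
  Complex.exp_log (mul_ne_zero two_ne_zero (sin_pi_ne hz))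

/-- the derivative of `ph` -/
noncomputable def ph' (z : ℂ) : ℂ :=
  Real.pi * Complex.cos (Real.pi * z) / Complex.sin (Real.pi * z)

lemma hasDerivAt_ph {z : ℂ} (hz : z ∈ strip) : HasDerivAt ph (ph' z) z := by
  have h1 : HasDerivAt (fun z : ℂ => 2 * Complex.sin (Real.pi * z))
      (2 * (Complex.cos (Real.pi * z) * (Real.pi * 1))) z :=
    (((hasDerivAt_id z).const_mul (Real.pi : ℂ)).csin).const_mul 2
  have h2 := h1.clog (two_sin_slit hz)
  have e : 2 * (Complex.cos (Real.pi * z) * (Real.pi * 1)) / (2 * Complex.sin (Real.pi * z)) =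
      ph' z := by
    unfold ph'
    have := sin_pi_ne hz
    field_simp
  rw [e] at h2
  exact h2

lemma differentiableOn_ph : DifferentiableOn ℂ ph strip := fun _ hz =>
  (hasDerivAt_ph hz).differentiableAt.differentiableWithinAt

lemma continuousAt_ph {z : ℂ} (hz : z ∈ strip) : ContinuousAt ph z :=
  (hasDerivAt_ph hz).continuousAt

lemma continuousAt_ph' {z : ℂ} (hz : z ∈ strip) : ContinuousAt ph' z := by
  unfold ph'
  apply ContinuousAt.div
  · fun_prop
  · fun_prop
  · exact sin_pi_ne hz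

lemma norm_ph'_le {z : ℂ} (hz : z ∈ strip) :
    ‖ph' z‖ ≤ Real.pi / Real.sin (Real.pi * z.re) := by
  have hs := sin_pi_pos hz.1 hz.2
  have h1 : ‖Complex.cos (Real.pi * z)‖ * Real.sin (Real.pi * z.re) ≤
      ‖Complex.sin (Real.pi * z)‖ := by
    apply le_of_sq_le_sq _ (norm_nonneg _)
    rw [mul_pow, Complex.sq_norm, Complex.sq_norm, Complex.normSq_apply, Complex.normSq_apply,
      sin_pi_re, sin_pi_im, cos_pi_re, cos_pi_im]
    have c1 := Real.sin_sq_add_cos_sq (Real.pi * z.re)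
    have c2 := Real.cosh_sq (Real.pi * z.im)
    set a := Real.sin (Real.pi * z.re)
    set b := Real.cos (Real.pi * z.re)
    set c := Real.cosh (Real.pi * z.im)
    set d := Real.sinh (Real.pi * z.im)
    have hb : b ^ 2 = 1 - a ^ 2 := by linarith only [c1]
    have e1 : (b * c * (b * c) + -(a * d) * -(a * d)) * a ^ 2 =
        b ^ 2 * c ^ 2 * a ^ 2 + a ^ 4 * d ^ 2 := by ring
    have e2 : a * c * (a * c) + b * d * (b * d) = a ^ 2 * c ^ 2 + b ^ 2 * d ^ 2 := by ring
    rw [e1, e2, hb, c2]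
    nlinarith only [c1, sq_nonneg (a ^ 2), sq_nonneg d, mul_nonneg (sq_nonneg a) (sq_nonneg d),
      sq_nonneg b, mul_nonneg (sq_nonneg b) (sq_nonneg d)]
  have hpos : 0 < ‖Complex.sin (Real.pi * z)‖ := norm_pos_iff.mpr (sin_pi_ne hz)
  unfold ph'
  rw [norm_div, norm_mul, Complex.norm_real, Real.norm_of_nonneg Real.pi_pos.le,
    div_le_div_iff₀ hpos hs]
  have := Real.pi_pos
  nlinarith only [h1, this]

lemma norm_ph_sub_le {z w : ℂ} (hz : z ∈ strip) (h : w.re = z.re) :
    ‖ph w - ph z‖ ≤ Real.pi / Real.sin (Real.pi * z.re) * |w.im - z.im| := by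
  have hc : Convex ℝ {v : ℂ | v.re = z.re} := by
    intro a ha b hb s t hs ht hst
    simp only [mem_ofPred_eq] at ha hb ⊢
    simp only [add_re, real_smul, mul_re, ofReal_re, ofReal_im, zero_mul, sub_zero, ha, hb]
    rw [← add_mul, hst, one_mul]
  have h1 := hc.norm_image_sub_le_of_norm_hasDerivWithin_le (𝕜 := ℂ) (f := ph) (f' := ph')
    (C := Real.pi / Real.sin (Real.pi * z.re)) (x := z) (y := w)
    (fun v hv => by
      have hv' : v ∈ strip := by
        simp only [mem_ofPred_eq] at hv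
        refine ⟨?_, ?_⟩
        · rw [hv]; exact hz.1
        · rw [hv]; exact hz.2
      exact (hasDerivAt_ph hv').hasDerivWithinAt)
    (fun v hv => by
      simp only [mem_ofPred_eq] at hv
      have hv' : v ∈ strip := by
        refine ⟨?_, ?_⟩
        · rw [hv]; exact hz.1
        · rw [hv]; exact hz.2
      have := norm_ph'_le hv'
      rw [hv] at this
      exact this)
    (by simp) (by simpa using h)
  refine h1.trans (le_of_eq ?_)
  congr 1
  have e : w - z = ((w.im - z.im : ℝ) : ℂ) * I := by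
    apply Complex.ext <;> simp [h]
  rw [e, norm_mul, Complex.norm_I, mul_one, Complex.norm_real, Real.norm_eq_abs]

lemma ph_one_sub (z : ℂ) : ph (1 - z) = ph z := by
  unfold ph
  congr 2
  rw [show (Real.pi : ℂ) * (1 - z) = Real.pi - Real.pi * z by ring, Complex.sin_pi_sub]

lemma ph_conj {z : ℂ} (hz : z ∈ strip) : ph (starRingEnd ℂ z) = starRingEnd ℂ (ph z) := by
  unfold ph
  rw [← Complex.log_conj]
  · congr 1
    rw [map_mul, ← Complex.sin_conj, map_mul, Complex.conj_ofReal, Complex.conj_ofNat]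
  · have := two_sin_slit hz
    exact Complex.slitPlane_arg_ne_pi this

lemma ph_ofReal {x : ℝ} (h0 : 0 < x) (h1 : x < 1) :
    ph x = ((Real.log (2 * Real.sin (Real.pi * x)) : ℝ) : ℂ) := by
  unfold ph
  have hs := sin_pi_pos h0 h1
  rw [Complex.ofReal_log (by positivity)]
  push_cast
  rfl

lemma strip_conj {z : ℂ} (hz : z ∈ strip) : starRingEnd ℂ z ∈ strip := by
  refine ⟨?_, ?_⟩
  · simpa using hz.1
  · simpa using hz.2

lemma strip_one_sub {z : ℂ} (hz : z ∈ strip) : 1 - z ∈ strip := by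
  refine ⟨?_, ?_⟩
  · have := hz.2
    simp only [sub_re, one_re]
    linarith only [this]
  · have := hz.1
    simp only [sub_re, one_re]
    linarith only [this]

lemma half_mem_strip : (1 / 2 : ℂ) ∈ strip := by
  refine ⟨?_, ?_⟩
  · norm_num
  · norm_num

/-- the primitive of `ph` vanishing at `1/2` -/
noncomputable def Fh (w : ℂ) : ℂ :=
  (w - 1 / 2) * ∫ t in (0 : ℝ)..1, ph (1 / 2 + t * (w - 1 / 2))

lemma seg_mem_strip {w : ℂ} (hw : w ∈ strip) {t : ℝ} (h0 : 0 ≤ t) (h1 : t ≤ 1) :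
    (1 / 2 + t * (w - 1 / 2) : ℂ) ∈ strip := by
  have := strip_convex half_mem_strip hw (sub_nonneg.mpr h1) h0 (by ring)
  have e : ((1 - t) • (1 / 2 : ℂ) + t • w : ℂ) = 1 / 2 + t * (w - 1 / 2) := by
    simp only [real_smul]
    push_cast
    ring
  rw [e] at this
  exact this

lemma exists_prim : ∃ g : ℂ → ℂ, ∀ a ∈ strip, HasDerivAt g (ph a) a := by
  obtain ⟨g, hg⟩ := strip_convex.exists_forall_hasDerivWithinAt differentiableOn_ph
  exact ⟨g, fun a ha => (hg a ha).hasDerivAt (strip_open.mem_nhds ha)⟩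

lemma prim_sub_eq {g : ℂ → ℂ} (hg : ∀ a ∈ strip, HasDerivAt g (ph a) a) {w : ℂ}
    (hw : w ∈ strip) : g w - g (1 / 2) = Fh w := by
  have h1 : ∀ t ∈ uIcc (0 : ℝ) 1, HasDerivAt (fun t : ℝ => g (1 / 2 + t * (w - 1 / 2)))
      (ph (1 / 2 + t * (w - 1 / 2)) * (w - 1 / 2)) t := by
    intro t ht
    rw [uIcc_of_le zero_le_one] at ht
    have hm := seg_mem_strip hw ht.1 ht.2
    have h2 : HasDerivAt (fun t : ℝ => (1 / 2 + t * (w - 1 / 2) : ℂ)) (w - 1 / 2) t := by
      have h3 : HasDerivAt (fun t : ℝ => ((t : ℝ) : ℂ)) 1 t := Complex.ofRealCLM.hasDerivAt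
      have h4 := (h3.mul_const (w - 1 / 2)).const_add (1 / 2 : ℂ)
      simpa using h4
    exact (hg _ hm).comp_of_eq t h2 rfl
  have hint : IntervalIntegrable (fun t : ℝ => ph (1 / 2 + t * (w - 1 / 2)) * (w - 1 / 2))
      volume 0 1 := by
    apply ContinuousOn.intervalIntegrable
    intro t ht
    rw [uIcc_of_le zero_le_one] at ht
    have hm := seg_mem_strip hw ht.1 ht.2
    have hc : ContinuousAt (fun t : ℝ => ph (1 / 2 + t * (w - 1 / 2))) t := by
      apply ContinuousAt.comp (g := ph) (f := fun t : ℝ => (1 / 2 + t * (w - 1 / 2) : ℂ))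
      · exact continuousAt_ph hm
      · fun_prop
    exact (hc.mul continuousAt_const).continuousWithinAt
  have h5 := intervalIntegral.integral_eq_sub_of_hasDerivAt h1 hint
  rw [intervalIntegral.integral_mul_const] at h5
  unfold Fh
  rw [mul_comm, h5]
  simp

lemma hasDerivAt_Fh {w : ℂ} (hw : w ∈ strip) : HasDerivAt Fh (ph w) w := by
  obtain ⟨g, hg⟩ := exists_prim
  have h1 : HasDerivAt (fun z => g z - g (1 / 2)) (ph w) w := (hg w hw).sub_const _
  apply h1.congr_of_eventuallyEq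
  filter_upwards [strip_open.mem_nhds hw] with z hz
  exact (prim_sub_eq hg hz).symm

lemma differentiableOn_Fh : DifferentiableOn ℂ Fh strip := fun _ hz =>
  (hasDerivAt_Fh hz).differentiableAt.differentiableWithinAt

lemma Fh_half : Fh (1 / 2) = 0 := by
  unfold Fh
  simp

lemma Fh_one_sub (w : ℂ) : Fh (1 - w) = -Fh w := by
  unfold Fh
  have e : ∀ t : ℝ, ph (1 / 2 + t * (1 - w - 1 / 2)) = ph (1 / 2 + t * (w - 1 / 2)) := by
    intro t
    rw [← ph_one_sub]
    congr 1
    ring
  simp_rw [e]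
  ring

lemma Fh_conj {w : ℂ} (hw : w ∈ strip) : Fh (starRingEnd ℂ w) = starRingEnd ℂ (Fh w) := by
  unfold Fh
  rw [map_mul, ← intervalIntegral.intervalIntegral_conj]
  congr 1
  · simp [Complex.conj_ofNat]
  · apply intervalIntegral.integral_congr
    intro t ht
    rw [uIcc_of_le zero_le_one] at ht
    have hm := seg_mem_strip hw ht.1 ht.2
    simp only
    rw [← ph_conj hm]
    congr 1
    simp [Complex.conj_ofNat]

end Pool.Agent.Work.MP_b30479_gt.VOL
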