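import Mathlib

/-!
# The kernel `1/(exp(2πny)+1)` and a contour integral
-/

namespace Pool.Agent.Work.MP_b30479_gt.VOL

set_option linter.unusedSimpArgs false

open Complex Set MeasureTheory Filter Topology

/-- `1/(e^{2πny}+1)` -/
noncomputable def kap (n y : ℝ) : ℝ := 1 / (Real.exp (2 * Real.pi * n * y) + 1)

lemma kap_pos (n y : ℝ) : 0 < kap n y := by
  unfold kap
  positivity

lemma kap_le (n y : ℝ) : kap n y ≤ Real.exp (-(2 * Real.pi * n) * y) := by
  unfold kap
  rw [div_le_iff₀ (by positivity), mul_add, ← Real.exp_add]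
  have e : -(2 * Real.pi * n) * y + 2 * Real.pi * n * y = 0 := by ring
  rw [e, Real.exp_zero]
  have := Real.exp_pos (-(2 * Real.pi * n) * y)
  linarith only [this]

lemma kap_cont (n : ℝ) : Continuous (kap n) := by
  unfold kap
  apply Continuous.div
  · fun_prop
  · fun_prop
  · intro y
    positivity

lemma int_exp {c : ℝ} (hc : 0 < c) : IntegrableOn (fun y : ℝ => Real.exp (-c * y)) (Ioi 0) :=
  exp_neg_integrableOn_Ioi 0 hc

lemma int_mul_exp {c : ℝ} (hc : 0 < c) :
    IntegrableOn (fun y : ℝ => y * Real.exp (-c * y)) (Ioi 0) := by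
  have h := integrableOn_rpow_mul_exp_neg_mul_rpow (p := 1) (s := 1) (b := c) (by norm_num)
    (by norm_num) hc
  simpa using h

lemma integral_mul_exp {c : ℝ} (hc : 0 < c) :
    ∫ y in Ioi (0 : ℝ), y * Real.exp (-c * y) = 1 / c ^ 2 := by
  have h := Real.integral_rpow_mul_exp_neg_mul_Ioi (a := 2) (r := c) (by norm_num) hc
  have e : ∫ y in Ioi (0 : ℝ), y * Real.exp (-c * y) =
      ∫ t in Ioi (0 : ℝ), t ^ ((2 : ℝ) - 1) * Real.exp (-(c * t)) := by
    apply setIntegral_congr_fun measurableSet_Ioi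
    intro y _
    simp only
    rw [show (2 : ℝ) - 1 = 1 by norm_num, Real.rpow_one, neg_mul]
  rw [e, h, Real.Gamma_two, mul_one]
  rw [show (2 : ℝ) = ((2 : ℕ) : ℝ) by norm_num, Real.rpow_natCast]
  rw [one_div_pow]

lemma int_kap {n : ℝ} (hn : 0 < n) {f : ℝ → ℂ} (hf : ContinuousOn f (Ioi 0)) {A B : ℝ}
    (hb : ∀ y > 0, ‖f y‖ ≤ A + B * y) :
    IntegrableOn (fun y => f y * (kap n y : ℂ)) (Ioi 0) := by
  have hc : 0 < 2 * Real.pi * n := by
    have := Real.pi_pos
    positivity
  have hg : IntegrableOn (fun y : ℝ => A * Real.exp (-(2 * Real.pi * n) * y) +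
      B * (y * Real.exp (-(2 * Real.pi * n) * y))) (Ioi 0) :=
    ((int_exp hc).const_mul A).add ((int_mul_exp hc).const_mul B)
  apply Integrable.mono' hg
  · apply ContinuousOn.aestronglyMeasurable _ measurableSet_Ioi
    apply hf.mul
    exact (Complex.continuous_ofReal.comp (kap_cont n)).continuousOn
  · rw [ae_restrict_iff' measurableSet_Ioi]
    filter_upwards with y hy
    rw [norm_mul, Complex.norm_real, Real.norm_of_nonneg (kap_pos n y).le]
    have h1 := hb y hy
    have h2 := kap_le n y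
    have h3 := kap_pos n y
    have h4 := Real.exp_pos (-(2 * Real.pi * n) * y)
    calc ‖f y‖ * kap n y ≤ (A + B * y) * kap n y := mul_le_mul_of_nonneg_right h1 h3.le
      _ ≤ (A + B * y) * Real.exp (-(2 * Real.pi * n) * y) :=
          mul_le_mul_of_nonneg_left h2 ((norm_nonneg _).trans h1)
      _ = _ := by ring

/-- the denominator -/
noncomputable def Ep (n : ℝ) (u : ℂ) : ℂ := 1 - Complex.exp (-(2 * Real.pi * n * I) * u)

lemma Ep_zero (n : ℝ) : Ep n 0 = 0 := by
  unfold Ep
  simp

lemma hasDerivAt_Ep (n : ℝ) (u : ℂ) :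
    HasDerivAt (Ep n) (2 * Real.pi * n * I * Complex.exp (-(2 * Real.pi * n * I) * u)) u := by
  unfold Ep
  have h1 : HasDerivAt (fun u : ℂ => -(2 * Real.pi * n * I) * u) (-(2 * Real.pi * n * I) * 1) u :=
    (hasDerivAt_id u).const_mul _
  have h2 := h1.cexp.const_sub 1
  have e : 2 * Real.pi * n * I * Complex.exp (-(2 * Real.pi * n * I) * u) =
      -(Complex.exp (-(2 * Real.pi * n * I) * u) * (-(2 * Real.pi * n * I) * 1)) := by ring
  rw [e]
  exact h2

lemma Ep_ne {n : ℝ} (hn : 0 < n) {u : ℂ} (hu : |u.re| ≤ 1 / (2 * n)) (h0 : u ≠ 0) :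
    Ep n u ≠ 0 := by
  intro h
  unfold Ep at h
  have h1 : Complex.exp (-(2 * Real.pi * n * I) * u) = 1 := (sub_eq_zero.mp h).symm
  rw [Complex.exp_eq_one_iff] at h1
  obtain ⟨k, hk⟩ := h1
  have hpi : (Real.pi : ℂ) ≠ 0 := by exact_mod_cast Real.pi_ne_zero
  have h2 : (n : ℂ) * u = -(k : ℂ) := by
    have h3 : (2 * Real.pi * I : ℂ) * (n * u + k) = 0 := by
      linear_combination -hk
    have h4 : (2 * Real.pi * I : ℂ) ≠ 0 := Complex.two_pi_I_ne_zero
    have h5 := (mul_eq_zero.mp h3).resolve_left h4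
    linear_combination h5
  have h3 : n * u.re = -(k : ℝ) := by
    have := congrArg Complex.re h2
    simpa using this
  have h4 : n * u.im = 0 := by
    have := congrArg Complex.im h2
    simpa using this
  have h5 : |(k : ℝ)| ≤ 1 / 2 := by
    have e : |(k : ℝ)| = n * |u.re| := by
      rw [← abs_neg, ← h3, abs_mul, abs_of_pos hn]
    rw [e]
    calc n * |u.re| ≤ n * (1 / (2 * n)) := mul_le_mul_of_nonneg_left hu hn.le
      _ = 1 / 2 := by field_simp
  have h6 : k = 0 := by
    by_contra hk0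
    have : (1 : ℤ) ≤ |k| := Int.one_le_abs hk0
    have h7 : (1 : ℝ) ≤ |(k : ℝ)| := by exact_mod_cast this
    linarith only [h5, h7]
  rw [h6] at h3
  apply h0
  apply Complex.ext
  · have : n * u.re = 0 := by simpa using h3
    simpa using (mul_eq_zero.mp this).resolve_left hn.ne'
  · simpa using (mul_eq_zero.mp h4).resolve_left hn.ne'

lemma dslope_Ep_ne {n : ℝ} (hn : 0 < n) {u : ℂ} (hu : |u.re| ≤ 1 / (2 * n)) :
    dslope (Ep n) 0 u ≠ 0 := by
  by_cases h0 : u = 0
  · rw [h0, dslope_same, (hasDerivAt_Ep n 0).deriv]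
    have h1 : (Real.pi : ℂ) ≠ 0 := by exact_mod_cast Real.pi_ne_zero
    have h2 : (n : ℂ) ≠ 0 := by exact_mod_cast hn.ne'
    simp [h1, h2, Complex.I_ne_zero]
  · rw [dslope_of_ne _ h0, slope_def_field, Ep_zero]
    apply div_ne_zero
    · rw [sub_zero]
      exact Ep_ne hn hu h0
    · rw [sub_zero]
      exact h0

/-- the quotient -/
noncomputable def Vq (n : ℝ) (p : ℂ → ℂ) (u : ℂ) : ℂ := dslope p 0 u / dslope (Ep n) 0 u

lemma Vq_of_ne {n : ℝ} {p : ℂ → ℂ} {u : ℂ} (h0 : u ≠ 0) :
    Vq n p u = (p u - p 0) / Ep n u := by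
  unfold Vq
  rw [dslope_of_ne _ h0, dslope_of_ne _ h0, slope_def_field, slope_def_field, Ep_zero]
  simp only [sub_zero]
  rw [div_div_div_cancel_right₀ h0]

lemma Vq_diff {n : ℝ} (hn : 0 < n) {p : ℂ → ℂ} {Ω : Set ℂ} (hΩ : IsOpen Ω)
    (hsub : ∀ u : ℂ, |u.re| ≤ 1 / (2 * n) → u ∈ Ω) (hp : DifferentiableOn ℂ p Ω) :
    DifferentiableOn ℂ (Vq n p) {u : ℂ | |u.re| ≤ 1 / (2 * n)} := by
  have h0 : (0 : ℂ) ∈ Ω := hsub 0 (by simp; positivity)
  have h1 : DifferentiableOn ℂ (dslope p 0) Ω :=
    (Complex.differentiableOn_dslope (hΩ.mem_nhds h0)).mpr hp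
  have h2 : DifferentiableOn ℂ (dslope (Ep n) 0) univ :=
    (Complex.differentiableOn_dslope univ_mem).mpr
      (fun u _ => (hasDerivAt_Ep n u).differentiableAt.differentiableWithinAt)
  intro u hu
  have hu' : |u.re| ≤ 1 / (2 * n) := hu
  apply DifferentiableWithinAt.div
  · exact (h1 u (hsub u hu')).mono (fun v hv => hsub v hv)
  · exact (h2 u (mem_univ _)).mono (subset_univ _)
  · exact dslope_Ep_ne hn hu'

lemma Ep_side {n : ℝ} (hn : 0 < n) (y : ℝ) :
    Ep n (((1 / (2 * n) : ℝ) : ℂ) + y * I) = ((Real.exp (2 * Real.pi * n * y) + 1 : ℝ) : ℂ) := by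
  unfold Ep
  have hn' : (n : ℂ) ≠ 0 := by exact_mod_cast hn.ne'
  have e : -(2 * Real.pi * n * I : ℂ) * (((1 / (2 * n) : ℝ) : ℂ) + y * I) =
      ((2 * Real.pi * n * y : ℝ) : ℂ) - Real.pi * I := by
    push_cast
    field_simp
    ring_nf
    rw [Complex.I_sq]
    ring
  rw [e, Complex.exp_sub, Complex.exp_pi_mul_I, ← Complex.ofReal_exp]
  push_cast
  ring

lemma Ep_side' {n : ℝ} (hn : 0 < n) (y : ℝ) :
    Ep n (((-(1 / (2 * n)) : ℝ) : ℂ) + y * I) =
      ((Real.exp (2 * Real.pi * n * y) + 1 : ℝ) : ℂ) := by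
  unfold Ep
  have hn' : (n : ℂ) ≠ 0 := by exact_mod_cast hn.ne'
  have e : -(2 * Real.pi * n * I : ℂ) * (((-(1 / (2 * n)) : ℝ) : ℂ) + y * I) =
      ((2 * Real.pi * n * y : ℝ) : ℂ) + Real.pi * I := by
    push_cast
    field_simp
    ring_nf
    rw [Complex.I_sq]
    ring
  rw [e, Complex.exp_add, Complex.exp_pi_mul_I, ← Complex.ofReal_exp]
  push_cast
  ring

lemma Ep_norm_ge (n : ℝ) (u : ℂ) : Real.exp (2 * Real.pi * n * u.im) - 1 ≤ ‖Ep n u‖ := by
  unfold Ep
  have h1 := norm_sub_norm_le (Complex.exp (-(2 * Real.pi * n * I) * u)) 1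
  rw [norm_sub_rev, norm_one, Complex.norm_exp] at h1
  have e : (-(2 * Real.pi * n * I) * u : ℂ).re = 2 * Real.pi * n * u.im := by
    have e2 : (-(2 * Real.pi * n * I) * u : ℂ) = (((-(2 * Real.pi * n) : ℝ) : ℂ) * (I * u)) := by
      push_cast
      ring
    rw [e2, Complex.re_ofReal_mul]
    simp
  rw [e] at h1
  exact h1

/-- the contour integral lemma -/
theorem contour {n : ℝ} (hn : 0 < n) {p : ℂ → ℂ} {Ω : Set ℂ} (hΩ : IsOpen Ω)
    (hsub : ∀ u : ℂ, |u.re| ≤ 1 / (2 * n) → u ∈ Ω) (hp : DifferentiableOn ℂ p Ω) {A B : ℝ}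
    (hb : ∀ u : ℂ, |u.re| ≤ 1 / (2 * n) → ‖p u - p 0‖ ≤ A + B * |u.im|) :
    ∫ x in (-(1 / (2 * n)))..(1 / (2 * n)), Vq n p x =
      -I * ((∫ y in Ioi (0 : ℝ), (p (((1 / (2 * n) : ℝ) : ℂ) + y * I) - p 0) * (kap n y : ℂ)) -
        ∫ y in Ioi (0 : ℝ), (p (((-(1 / (2 * n)) : ℝ) : ℂ) + y * I) - p 0) * (kap n y : ℂ)) := by
  set h : ℝ := 1 / (2 * n) with hh
  have hh0 : 0 < h := by positivity
  have hV := Vq_diff hn hΩ hsub hp
  have hside1 : ∀ y : ℝ, Vq n p ((h : ℂ) + y * I) = (p ((h : ℂ) + y * I) - p 0) *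
      (kap n y : ℂ) := by
    intro y
    rw [Vq_of_ne, Ep_side hn y]
    · unfold kap
      push_cast
      rw [one_div, div_eq_mul_inv]
    · intro h0
      have := congrArg Complex.re h0
      simp at this
      exact hh0.ne' this
  have hside2 : ∀ y : ℝ, Vq n p (((-h : ℝ) : ℂ) + y * I) =
      (p (((-h : ℝ) : ℂ) + y * I) - p 0) * (kap n y : ℂ) := by
    intro y
    rw [Vq_of_ne, Ep_side' hn y]
    · unfold kap
      push_cast
      rw [one_div, div_eq_mul_inv]
    · intro h0
      have := congrArg Complex.re h0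
      simp at this
      exact hh0.ne' this
  -- the rectangle identity
  have hrect : ∀ T : ℝ, 0 ≤ T → (∫ x in (-h)..h, Vq n p x) =
      (∫ x in (-h)..h, Vq n p (x + T * I)) -
        I * (∫ y in (0 : ℝ)..T, Vq n p ((h : ℂ) + y * I)) +
        I * (∫ y in (0 : ℝ)..T, Vq n p (((-h : ℝ) : ℂ) + y * I)) := by
    intro T hT
    have h1 := Complex.integral_boundary_rect_eq_zero_of_differentiableOn (Vq n p)
      (((-h : ℝ) : ℂ)) ((h : ℂ) + T * I) (by
        apply hV.mono
        intro u hu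
        rw [Complex.mem_reProdIm] at hu
        have h2 := hu.1
        simp only [ofReal_re, add_re, mul_re, I_re, mul_zero, ofReal_im, I_im, mul_one, sub_self,
          add_zero] at h2
        rw [uIcc_of_le (by linarith only [hh0])] at h2
        exact abs_le.mpr h2)
    simp only [ofReal_re, add_re, mul_re, I_re, mul_zero, ofReal_im, I_im, mul_one, sub_self,
      add_zero, add_im, mul_im, zero_add, ofReal_zero, zero_mul, smul_eq_mul] at h1
    linear_combination h1
  -- growth
  have hAB : ∀ T : ℝ, 0 ≤ T → 0 ≤ A + B * T := by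
    intro T hT
    have := hb (T * I) (by simp; positivity)
    simp only [mul_im, ofReal_re, I_im, mul_one, ofReal_im, I_re, mul_zero, add_zero,
      abs_of_nonneg hT] at this
    exact (norm_nonneg _).trans this
  have htop : Tendsto (fun T : ℝ => ∫ x in (-h)..h, Vq n p (x + T * I)) atTop (𝓝 0) := by
    have hc : 0 < 2 * Real.pi * n := by
      have := Real.pi_pos
      positivity
    have hlim : Tendsto (fun T : ℝ => (A + B * T) * Real.exp (-(2 * Real.pi * n) * T) * 2 *
        (2 * h)) atTop (𝓝 0) := by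
      have l1 : Tendsto (fun T : ℝ => Real.exp (-(2 * Real.pi * n) * T)) atTop (𝓝 0) := by
        apply Real.tendsto_exp_atBot.comp
        apply Tendsto.const_mul_atTop_of_neg (by linarith only [hc]) tendsto_id
      have l2 : Tendsto (fun T : ℝ => T * Real.exp (-(2 * Real.pi * n) * T)) atTop (𝓝 0) := by
        have := Real.tendsto_pow_mul_exp_neg_atTop_nhds_zero 1
        have l3 : Tendsto (fun T : ℝ => (2 * Real.pi * n) * T) atTop atTop :=
          Tendsto.const_mul_atTop hc tendsto_id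
        have l4 := (this.comp l3).const_mul (1 / (2 * Real.pi * n))
        rw [mul_zero] at l4
        refine l4.congr (fun T => ?_)
        simp only [Function.comp, pow_one]
        rw [neg_mul]
        field_simp
      have l5 := (((l1.const_mul A).add (l2.const_mul B)).mul_const 2).mul_const (2 * h)
      rw [mul_zero, mul_zero, add_zero, zero_mul, zero_mul] at l5
      refine l5.congr (fun T => ?_)
      ring
    apply squeeze_zero_norm' _ hlim
    filter_upwards [eventually_ge_atTop (1 / n)] with T hT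
    have hT0 : 0 < T := lt_of_lt_of_le (by positivity) hT
    have hexp : 2 ≤ Real.exp (2 * Real.pi * n * T) := by
      have h1 : 1 ≤ n * T := by
        rw [div_le_iff₀ hn] at hT
        linarith only [hT]
      have h2 : 1 ≤ 2 * Real.pi * n * T := by
        have := Real.pi_gt_three
        nlinarith only [hn, this, hc, h1]
      have h3 := Real.add_one_le_exp (2 * Real.pi * n * T)
      linarith only [h2, h3]
    have hbd : ∀ x ∈ Set.uIoc (-h) h, ‖Vq n p (x + T * I)‖ ≤
        (A + B * T) * Real.exp (-(2 * Real.pi * n) * T) * 2 := by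
      intro x hx
      rw [uIoc_of_le (by linarith only [hh0])] at hx
      have hxa : |x| ≤ h := abs_le.mpr ⟨hx.1.le, hx.2⟩
      have hne : (x + T * I : ℂ) ≠ 0 := by
        intro h0
        have := congrArg Complex.im h0
        simp at this
        exact hT0.ne' this
      rw [Vq_of_ne hne, norm_div]
      have h1 := hb (x + T * I) (by simpa using hxa)
      have h2 := Ep_norm_ge n (x + T * I)
      have e1 : (x + T * I : ℂ).im = T := by simp
      rw [e1] at h1 h2
      rw [abs_of_pos hT0] at h1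
      have h3 : Real.exp (2 * Real.pi * n * T) / 2 ≤ ‖Ep n (x + T * I)‖ := by linarith only [hexp, h2]
      have h4 : 0 < Real.exp (2 * Real.pi * n * T) / 2 := by positivity
      calc ‖p (x + T * I) - p 0‖ / ‖Ep n (x + T * I)‖ ≤
          (A + B * T) / (Real.exp (2 * Real.pi * n * T) / 2) :=
            div_le_div₀ (hAB T hT0.le) h1 h4 h3
        _ = _ := by
            rw [neg_mul, Real.exp_neg]
            field_simp
    have h1 := intervalIntegral.norm_integral_le_of_norm_le_const hbd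
    refine h1.trans (le_of_eq ?_)
    rw [abs_of_pos (by linarith only [hh0])]
    ring
  have hcont1 : ContinuousOn (fun y : ℝ => p ((h : ℂ) + y * I) - p 0) (Ioi 0) := by
    apply ContinuousOn.sub _ continuousOn_const
    apply hp.continuousOn.comp (by fun_prop)
    intro y _
    apply hsub
    simp [abs_of_pos hh0]
  have hcont2 : ContinuousOn (fun y : ℝ => p (((-h : ℝ) : ℂ) + y * I) - p 0) (Ioi 0) := by
    apply ContinuousOn.sub _ continuousOn_const
    apply hp.continuousOn.comp (by fun_prop)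
    intro y _
    apply hsub
    simp [abs_of_pos hh0]
  have hi1 := int_kap hn hcont1 (A := A) (B := B) (by
    intro y hy
    have := hb ((h : ℂ) + y * I) (by simp [abs_of_pos hh0])
    simpa [abs_of_pos hy] using this)
  have hi2 := int_kap hn hcont2 (A := A) (B := B) (by
    intro y hy
    have := hb (((-h : ℝ) : ℂ) + y * I) (by simp [abs_of_pos hh0])
    simpa [abs_of_pos hy] using this)
  have ht1 := intervalIntegral_tendsto_integral_Ioi 0 hi1 tendsto_id
  have ht2 := intervalIntegral_tendsto_integral_Ioi 0 hi2 tendsto_id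
  have hlim := (htop.sub (ht1.const_mul I)).add (ht2.const_mul I)
  have hconst : Tendsto (fun _ : ℝ => ∫ x in (-h)..h, Vq n p x) atTop
      (𝓝 (∫ x in (-h)..h, Vq n p x)) := tendsto_const_nhds
  have heq := tendsto_nhds_unique_of_eventuallyEq hconst hlim (by
    filter_upwards [eventually_ge_atTop 0] with T hT
    rw [hrect T hT]
    simp only [id]
    congr 2
    · congr 1
      apply intervalIntegral.integral_congr
      intro y _
      exact hside1 y
    · apply intervalIntegral.integral_congr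
      intro y _
      exact hside2 y)
  rw [heq]
  ring

end Pool.Agent.Work.MP_b30479_gt.VOL
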