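import Pool.Agent.Work.MP_b30479_gt.VOL.Kap
import Pool.Agent.Work.MP_b30479_gt.VOL.Ph

/-!
# The exact discrete primitive of `ph`

`M n w = n F(w) + J n w` satisfies `M(w + 1/(2n)) - M(w - 1/(2n)) = ph w`.
-/

namespace Pool.Agent.Work.MP_b30479_gt.VOL

set_option linter.unusedSimpArgs false

open Complex Set MeasureTheory Filter Topology

/-- the correction term -/
noncomputable def J (n : ℝ) (w : ℂ) : ℂ :=
  n * I * ∫ y in Ioi (0 : ℝ), (ph (w + y * I) - ph (w - y * I)) * (kap n y : ℂ)

/-- the discrete primitive -/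
noncomputable def M (n : ℝ) (w : ℂ) : ℂ := n * Fh w + J n w

lemma strip_add_I {w : ℂ} (hw : w ∈ strip) (y : ℝ) : w + y * I ∈ strip := by
  refine ⟨?_, ?_⟩
  · simpa using hw.1
  · simpa using hw.2

lemma strip_sub_I {w : ℂ} (hw : w ∈ strip) (y : ℝ) : w - y * I ∈ strip := by
  refine ⟨?_, ?_⟩
  · simpa using hw.1
  · simpa using hw.2

lemma cont_add_I {w : ℂ} (hw : w ∈ strip) : Continuous (fun y : ℝ => ph (w + y * I)) := by
  rw [continuous_iff_continuousAt]
  intro y
  apply ContinuousAt.comp (g := ph) (f := fun y : ℝ => (w + y * I : ℂ))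
  · exact continuousAt_ph (strip_add_I hw y)
  · fun_prop

lemma cont_sub_I {w : ℂ} (hw : w ∈ strip) : Continuous (fun y : ℝ => ph (w - y * I)) := by
  rw [continuous_iff_continuousAt]
  intro y
  apply ContinuousAt.comp (g := ph) (f := fun y : ℝ => (w - y * I : ℂ))
  · exact continuousAt_ph (strip_sub_I hw y)
  · fun_prop

lemma norm_add_sub_le {w : ℂ} (hw : w ∈ strip) {y : ℝ} (hy : 0 ≤ y) :
    ‖ph (w + y * I) - ph (w - y * I)‖ ≤ 2 * Real.pi / Real.sin (Real.pi * w.re) * y := by
  have h1 := norm_ph_sub_le (strip_sub_I hw y) (w := w + y * I) (by simp)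
  refine h1.trans (le_of_eq ?_)
  have e1 : (w - y * I).re = w.re := by simp
  have e2 : (w + y * I).im - (w - y * I).im = 2 * y := by
    simp
    ring
  rw [e1, e2, abs_of_nonneg (by positivity)]
  ring

lemma J_integrable {n : ℝ} (hn : 0 < n) {w : ℂ} (hw : w ∈ strip) :
    IntegrableOn (fun y : ℝ => (ph (w + y * I) - ph (w - y * I)) * (kap n y : ℂ)) (Ioi 0) :=
  int_kap hn ((cont_add_I hw).sub (cont_sub_I hw)).continuousOn (A := 0)
    (B := 2 * Real.pi / Real.sin (Real.pi * w.re)) (by
      intro y hy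
      rw [zero_add]
      exact norm_add_sub_le hw hy.le)

theorem norm_J_le {n : ℝ} (hn : 0 < n) {w : ℂ} (hw : w ∈ strip) :
    ‖J n w‖ ≤ 1 / (2 * Real.pi * n * Real.sin (Real.pi * w.re)) := by
  have hs := sin_pi_pos hw.1 hw.2
  have hpi := Real.pi_pos
  have hc : 0 < 2 * Real.pi * n := by positivity
  unfold J
  rw [norm_mul, norm_mul, Complex.norm_I, mul_one, Complex.norm_real, Real.norm_of_nonneg hn.le]
  have h1 : ‖∫ y in Ioi (0 : ℝ), (ph (w + y * I) - ph (w - y * I)) * (kap n y : ℂ)‖ ≤
      ∫ y in Ioi (0 : ℝ), (2 * Real.pi / Real.sin (Real.pi * w.re)) *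
        (y * Real.exp (-(2 * Real.pi * n) * y)) := by
    apply norm_integral_le_of_norm_le ((int_mul_exp hc).const_mul _)
    rw [ae_restrict_iff' measurableSet_Ioi]
    filter_upwards with y hy
    have hy' : 0 < y := hy
    rw [norm_mul, Complex.norm_real, Real.norm_of_nonneg (kap_pos n y).le]
    have h2 := norm_add_sub_le hw hy'.le
    calc ‖ph (w + y * I) - ph (w - y * I)‖ * kap n y ≤
        (2 * Real.pi / Real.sin (Real.pi * w.re) * y) * Real.exp (-(2 * Real.pi * n) * y) :=
          mul_le_mul h2 (kap_le n y) (kap_pos n y).le (by positivity)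
      _ = _ := by ring
  rw [integral_const_mul, integral_mul_exp hc] at h1
  calc n * ‖∫ y in Ioi (0 : ℝ), (ph (w + y * I) - ph (w - y * I)) * (kap n y : ℂ)‖ ≤
      n * ((2 * Real.pi / Real.sin (Real.pi * w.re)) * (1 / (2 * Real.pi * n) ^ 2)) :=
        mul_le_mul_of_nonneg_left h1 hn.le
    _ = _ := by
        field_simp

/-- uniform bound up to distance `1/(2n)` from the ends -/
theorem norm_J_le_unif {n : ℝ} (hn : 1 ≤ n) {w : ℂ} (h0 : 1 / (2 * n) ≤ w.re)
    (h1 : w.re ≤ 1 - 1 / (2 * n)) : ‖J n w‖ ≤ 1 / (2 * Real.pi) := by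
  have hn0 : 0 < n := by linarith only [hn]
  have hh : 0 < 1 / (2 * n) := by positivity
  have hw : w ∈ strip := ⟨by linarith only [h0, hh], by linarith only [h1, hh]⟩
  have hpi := Real.pi_pos
  refine (norm_J_le hn0 hw).trans ?_
  have key : ∀ x : ℝ, 1 / (2 * n) ≤ x → x ≤ 1 / 2 → 1 ≤ n * Real.sin (Real.pi * x) := by
    intro x hx hx2
    have hx0 : 0 < x := lt_of_lt_of_le hh hx
    have h2 := Real.mul_le_sin (x := Real.pi * x) (by positivity) (by nlinarith only [h0, h1, hh, hpi, hx2])
    have e : 2 / Real.pi * (Real.pi * x) = 2 * x := by field_simp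
    rw [e] at h2
    have h3 : 1 ≤ n * (2 * x) := by
      rw [div_le_iff₀ (by positivity)] at hx
      linarith only [hx]
    have h4 := mul_le_mul_of_nonneg_left h2 hn0.le
    linarith only [h3, h4]
  have h2 : 1 ≤ n * Real.sin (Real.pi * w.re) := by
    rcases le_total w.re (1 / 2) with h | h
    · exact key w.re h0 h
    · have := key (1 - w.re) (by linarith only [h1]) (by linarith only [h])
      rw [show Real.pi * (1 - w.re) = Real.pi - Real.pi * w.re by ring, Real.sin_pi_sub] at this
      exact this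
  apply div_le_div_of_nonneg_left (by norm_num) (by positivity)
  have h3 : 2 * Real.pi * n * Real.sin (Real.pi * w.re) =
      2 * Real.pi * (n * Real.sin (Real.pi * w.re)) := by ring
  rw [h3]
  have h4 := mul_le_mul_of_nonneg_left h2 (by positivity : 0 ≤ 2 * Real.pi)
  linarith only [h4]

lemma J_one_sub (n : ℝ) (w : ℂ) : J n (1 - w) = -J n w := by
  unfold J
  rw [← mul_neg, ← integral_neg]
  congr 1
  apply integral_congr_ae
  filter_upwards with y
  have e1 : ph (1 - w + y * I) = ph (w - y * I) := by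
    rw [← ph_one_sub]
    congr 1
    ring
  have e2 : ph (1 - w - y * I) = ph (w + y * I) := by
    rw [← ph_one_sub]
    congr 1
    ring
  rw [e1, e2]
  ring

lemma J_conj {n : ℝ} {w : ℂ} (hw : w ∈ strip) :
    J n (starRingEnd ℂ w) = starRingEnd ℂ (J n w) := by
  unfold J
  rw [map_mul, map_mul, Complex.conj_ofReal, Complex.conj_I, ← integral_conj, mul_neg,
    neg_mul, ← mul_neg, ← integral_neg]
  congr 1
  apply integral_congr_ae
  filter_upwards with y
  have e1 : ph (starRingEnd ℂ w + y * I) = starRingEnd ℂ (ph (w - y * I)) := by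
    rw [← ph_conj (strip_sub_I hw y)]
    congr 1
    simp
  have e2 : ph (starRingEnd ℂ w - y * I) = starRingEnd ℂ (ph (w + y * I)) := by
    rw [← ph_conj (strip_add_I hw y)]
    congr 1
    simp
    ring
  rw [e1, e2, map_mul, map_sub, Complex.conj_ofReal]
  ring

lemma M_one_sub (n : ℝ) (w : ℂ) : M n (1 - w) = -M n w := by
  unfold M
  rw [J_one_sub, Fh_one_sub]
  ring

lemma M_conj {n : ℝ} {w : ℂ} (hw : w ∈ strip) :
    M n (starRingEnd ℂ w) = starRingEnd ℂ (M n w) := by
  unfold M
  rw [J_conj hw, Fh_conj hw, map_add, map_mul, Complex.conj_ofReal]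

lemma ofReal_mem_strip {x : ℝ} (h0 : 0 < x) (h1 : x < 1) : (x : ℂ) ∈ strip :=
  ⟨by simpa using h0, by simpa using h1⟩

lemma M_ofReal (n : ℝ) {x : ℝ} (h0 : 0 < x) (h1 : x < 1) : M n x = (((M n x).re : ℝ) : ℂ) := by
  have h := M_conj (n := n) (ofReal_mem_strip h0 h1)
  rw [Complex.conj_ofReal] at h
  exact (Complex.conj_eq_iff_re.mp h.symm).symm

/-- the derivative of `J` -/
noncomputable def J' (n : ℝ) (w : ℂ) : ℂ :=
  n * I * ∫ y in Ioi (0 : ℝ), (ph' (w + y * I) - ph' (w - y * I)) * (kap n y : ℂ)

theorem hasDerivAt_J {n : ℝ} (hn : 0 < n) {w : ℂ} (hw : w ∈ strip) :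
    HasDerivAt (J n) (J' n w) w := by
  have hpi := Real.pi_pos
  have hc : 0 < 2 * Real.pi * n := by positivity
  have hs := sin_pi_pos hw.1 hw.2
  set C : ℝ := Real.pi / Real.sin (Real.pi * w.re) + 1 with hC
  have hs1 : {z : ℂ | z ∈ strip ∧ Real.pi / Real.sin (Real.pi * z.re) < C} ∈ 𝓝 w := by
    have h1 : ContinuousAt (fun z : ℂ => Real.pi / Real.sin (Real.pi * z.re)) w := by
      apply ContinuousAt.div
      · fun_prop
      · fun_prop
      · exact hs.ne'
    have h2 : ∀ᶠ z in 𝓝 w, Real.pi / Real.sin (Real.pi * z.re) < C :=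
      h1.eventually (gt_mem_nhds (by rw [hC]; linarith only []))
    filter_upwards [strip_open.mem_nhds hw, h2] with z hz1 hz2
    exact ⟨hz1, hz2⟩
  have key := hasDerivAt_integral_of_dominated_loc_of_deriv_le
    (μ := volume.restrict (Ioi (0 : ℝ)))
    (F := fun (z : ℂ) (y : ℝ) => (ph (z + y * I) - ph (z - y * I)) * (kap n y : ℂ))
    (F' := fun (z : ℂ) (y : ℝ) => (ph' (z + y * I) - ph' (z - y * I)) * (kap n y : ℂ))
    (x₀ := w) (s := {z : ℂ | z ∈ strip ∧ Real.pi / Real.sin (Real.pi * z.re) < C})
    (bound := fun y => (2 * C) * Real.exp (-(2 * Real.pi * n) * y)) hs1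
    (by
      filter_upwards [strip_open.mem_nhds hw] with z hz
      exact (((cont_add_I hz).sub (cont_sub_I hz)).mul
        (Complex.continuous_ofReal.comp (kap_cont n))).aestronglyMeasurable)
    (J_integrable hn hw)
    (by
      apply Continuous.aestronglyMeasurable
      apply Continuous.mul _ (Complex.continuous_ofReal.comp (kap_cont n))
      apply Continuous.sub
      · rw [continuous_iff_continuousAt]
        intro y
        apply ContinuousAt.comp (g := ph') (f := fun y : ℝ => (w + y * I : ℂ))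
        · exact continuousAt_ph' (strip_add_I hw y)
        · fun_prop
      · rw [continuous_iff_continuousAt]
        intro y
        apply ContinuousAt.comp (g := ph') (f := fun y : ℝ => (w - y * I : ℂ))
        · exact continuousAt_ph' (strip_sub_I hw y)
        · fun_prop)
    (by
      filter_upwards with y z hz
      have h1 := norm_ph'_le (strip_add_I hz.1 y)
      have h2 := norm_ph'_le (strip_sub_I hz.1 y)
      have e1 : (z + y * I).re = z.re := by simp
      have e2 : (z - y * I).re = z.re := by simp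
      rw [e1] at h1
      rw [e2] at h2
      rw [norm_mul, Complex.norm_real, Real.norm_of_nonneg (kap_pos n y).le]
      have h3 : ‖ph' (z + y * I) - ph' (z - y * I)‖ ≤ 2 * C := by
        have := norm_sub_le (ph' (z + y * I)) (ph' (z - y * I))
        linarith only [hz, h1, h2, this, hz.2]
      exact mul_le_mul h3 (kap_le n y) (kap_pos n y).le ((norm_nonneg _).trans h3))
    ((int_exp hc).const_mul (2 * C))
    (by
      filter_upwards with y z hz
      have h1 : HasDerivAt (fun z : ℂ => ph (z + y * I)) (ph' (z + y * I)) z :=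
        (hasDerivAt_ph (strip_add_I hz.1 y)).comp_add_const z _
      have h2 : HasDerivAt (fun z : ℂ => ph (z - y * I)) (ph' (z - y * I)) z :=
        (hasDerivAt_ph (strip_sub_I hz.1 y)).comp_sub_const z _
      exact (h1.sub h2).mul_const _)
  exact key.2.const_mul (n * I : ℂ)

theorem hasDerivAt_M {n : ℝ} (hn : 0 < n) {w : ℂ} (hw : w ∈ strip) :
    HasDerivAt (M n) (n * ph w + J' n w) w :=
  ((hasDerivAt_Fh hw).const_mul (n : ℂ)).add (hasDerivAt_J hn hw)

theorem differentiableOn_M {n : ℝ} (hn : 0 < n) : DifferentiableOn ℂ (M n) strip :=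
  fun _ hz => (hasDerivAt_M hn hz).differentiableAt.differentiableWithinAt

theorem norm_J'_le {n : ℝ} (hn : 0 < n) {w : ℂ} (hw : w ∈ strip) :
    ‖J' n w‖ ≤ 1 / Real.sin (Real.pi * w.re) := by
  have hs := sin_pi_pos hw.1 hw.2
  have hpi := Real.pi_pos
  have hc : 0 < 2 * Real.pi * n := by positivity
  unfold J'
  rw [norm_mul, norm_mul, Complex.norm_I, mul_one, Complex.norm_real, Real.norm_of_nonneg hn.le]
  have h1 : ‖∫ y in Ioi (0 : ℝ), (ph' (w + y * I) - ph' (w - y * I)) * (kap n y : ℂ)‖ ≤
      ∫ y in Ioi (0 : ℝ), (2 * Real.pi / Real.sin (Real.pi * w.re)) *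
        Real.exp (-(2 * Real.pi * n) * y) := by
    apply norm_integral_le_of_norm_le ((int_exp hc).const_mul _)
    filter_upwards with y
    rw [norm_mul, Complex.norm_real, Real.norm_of_nonneg (kap_pos n y).le]
    have h1 := norm_ph'_le (strip_add_I hw y)
    have h2 := norm_ph'_le (strip_sub_I hw y)
    have e1 : (w + y * I).re = w.re := by simp
    have e2 : (w - y * I).re = w.re := by simp
    rw [e1] at h1
    rw [e2] at h2
    have h3 : ‖ph' (w + y * I) - ph' (w - y * I)‖ ≤
        2 * Real.pi / Real.sin (Real.pi * w.re) := by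
      have := norm_sub_le (ph' (w + y * I)) (ph' (w - y * I))
      calc _ ≤ _ := this
        _ ≤ _ := add_le_add h1 h2
        _ = _ := by ring
    exact mul_le_mul h3 (kap_le n y) (kap_pos n y).le (by positivity)
  have h2 : ∫ y in Ioi (0 : ℝ), Real.exp (-(2 * Real.pi * n) * y) = 1 / (2 * Real.pi * n) := by
    have := integral_exp_mul_Ioi (a := -(2 * Real.pi * n)) (by linarith only [hc]) 0
    rw [this, mul_zero, Real.exp_zero, neg_div_neg_eq]
  rw [integral_const_mul, h2] at h1
  calc n * ‖∫ y in Ioi (0 : ℝ), (ph' (w + y * I) - ph' (w - y * I)) * (kap n y : ℂ)‖ ≤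
      n * ((2 * Real.pi / Real.sin (Real.pi * w.re)) * (1 / (2 * Real.pi * n))) :=
        mul_le_mul_of_nonneg_left h1 hn.le
    _ = _ := by
        field_simp

lemma growth {n : ℝ} (hn : 0 < n) {w : ℂ} (h0 : 1 / (2 * n) < w.re)
    (h1 : w.re < 1 - 1 / (2 * n)) :
    ∃ A B : ℝ, ∀ u : ℂ, |u.re| ≤ 1 / (2 * n) → ‖ph (w + u) - ph w‖ ≤ A + B * |u.im| := by
  have hh : 0 < 1 / (2 * n) := by positivity
  have hK : IsCompact (Icc (-(1 / (2 * n))) (1 / (2 * n))) := isCompact_Icc
  have hmem : ∀ x ∈ Icc (-(1 / (2 * n))) (1 / (2 * n)), (w + (x : ℂ)) ∈ strip := by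
    intro x hx
    refine ⟨?_, ?_⟩
    · simp only [add_re, ofReal_re]
      linarith only [h0, hx, hx.1]
    · simp only [add_re, ofReal_re]
      linarith only [h1, hx, hx.2]
  have hc1 : ContinuousOn (fun x : ℝ => ph (w + (x : ℂ)) - ph w)
      (Icc (-(1 / (2 * n))) (1 / (2 * n))) := by
    intro x hx
    apply ContinuousAt.continuousWithinAt
    apply ContinuousAt.sub _ continuousAt_const
    apply ContinuousAt.comp (g := ph) (f := fun x : ℝ => (w + x : ℂ))
    · exact continuousAt_ph (hmem x hx)
    · fun_prop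
  have hc2 : ContinuousOn (fun x : ℝ => Real.pi / Real.sin (Real.pi * (w.re + x)))
      (Icc (-(1 / (2 * n))) (1 / (2 * n))) := by
    intro x hx
    apply ContinuousAt.continuousWithinAt
    apply ContinuousAt.div
    · fun_prop
    · fun_prop
    · have := hmem x hx
      have h2 := sin_pi_pos this.1 this.2
      simp only [add_re, ofReal_re] at h2
      exact h2.ne'
  obtain ⟨A, hA⟩ := hK.exists_bound_of_continuousOn hc1
  obtain ⟨B, hB⟩ := hK.exists_bound_of_continuousOn hc2
  refine ⟨A, B, fun u hu => ?_⟩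
  have hx : u.re ∈ Icc (-(1 / (2 * n))) (1 / (2 * n)) := abs_le.mp hu
  have h2 := hA _ hx
  have h3 := norm_ph_sub_le (hmem _ hx) (w := w + u) (by simp)
  have e1 : (w + (u.re : ℂ)).re = w.re + u.re := by simp
  have e2 : (w + u).im - (w + (u.re : ℂ)).im = u.im := by simp
  rw [e1, e2] at h3
  have h4 : Real.pi / Real.sin (Real.pi * (w.re + u.re)) ≤ B :=
    (le_abs_self _).trans (hB _ hx)
  have h5 : ‖ph (w + u) - ph w‖ ≤ ‖ph (w + u) - ph (w + (u.re : ℂ))‖ +
      ‖ph (w + (u.re : ℂ)) - ph w‖ := by
    have e3 : ph (w + u) - ph w = (ph (w + u) - ph (w + (u.re : ℂ))) +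
      (ph (w + (u.re : ℂ)) - ph w) := by ring
    rw [e3]
    exact norm_add_le _ _
  have h6 := mul_le_mul_of_nonneg_right h4 (abs_nonneg u.im)
  linarith only [h2, h3, h5, h6]

/-- the exact difference equation -/
theorem M_step {n : ℝ} (hn : 0 < n) {w : ℂ} (h0 : 1 / (2 * n) < w.re)
    (h1 : w.re < 1 - 1 / (2 * n)) :
    M n (w + ((1 / (2 * n) : ℝ) : ℂ)) - M n (w - ((1 / (2 * n) : ℝ) : ℂ)) = ph w := by
  have hh : 0 < 1 / (2 * n) := by positivity
  set h : ℝ := 1 / (2 * n) with hhd
  have hws : w ∈ strip := ⟨by linarith only [h0, hh], by linarith only [h1, hh]⟩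
  have hwp : w + (h : ℂ) ∈ strip := by
    refine ⟨?_, ?_⟩
    · simp only [add_re, ofReal_re]
      linarith only [h0, hh]
    · simp only [add_re, ofReal_re]
      linarith only [h1]
  have hwm : w - (h : ℂ) ∈ strip := by
    refine ⟨?_, ?_⟩
    · simp only [sub_re, ofReal_re]
      linarith only [h0]
    · simp only [sub_re, ofReal_re]
      linarith only [h1, hh]
  obtain ⟨A, B, hAB⟩ := growth hn h0 h1
  -- first contour
  have c1 := contour hn (p := fun u => ph (w + u)) (Ω := {u | w + u ∈ strip})
    (strip_open.preimage (by fun_prop))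
    (by
      intro u hu
      rw [abs_le] at hu
      refine ⟨?_, ?_⟩
      · simp only [add_re]
        linarith only [h0, hu, hu.1]
      · simp only [add_re]
        linarith only [h1, hu, hu.2])
    (by
      intro u hu
      exact ((hasDerivAt_ph hu).comp_const_add w u).differentiableAt.differentiableWithinAt)
    (A := A) (B := B) (by
      intro u hu
      have := hAB u hu
      simpa using this)
  have c2 := contour hn (p := fun u => ph (w - u)) (Ω := {u | w - u ∈ strip})
    (strip_open.preimage (by fun_prop))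
    (by
      intro u hu
      rw [abs_le] at hu
      refine ⟨?_, ?_⟩
      · simp only [sub_re]
        linarith only [h0, hu, hu.2]
      · simp only [sub_re]
        linarith only [h1, hu, hu.1])
    (by
      intro u hu
      exact ((hasDerivAt_ph hu).comp_const_sub w u).differentiableAt.differentiableWithinAt)
    (A := A) (B := B) (by
      intro u hu
      have := hAB (-u) (by simpa using hu)
      simpa [sub_eq_add_neg] using this)
  rw [← hhd] at c1 c2
  simp only [add_zero, sub_zero] at c1 c2
  -- the pieces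
  have i1 : IntegrableOn (fun y : ℝ => ph (w + h + y * I) * (kap n y : ℂ)) (Ioi 0) := by
    apply int_kap hn (cont_add_I hwp).continuousOn (A := ‖ph (w + h)‖)
      (B := Real.pi / Real.sin (Real.pi * (w + h).re))
    intro y hy
    have h2 := norm_ph_sub_le hwp (w := w + h + y * I) (by simp)
    have e1 : (w + h + y * I : ℂ).im - (w + h).im = y := by simp
    rw [e1, abs_of_pos hy] at h2
    have h3 := norm_sub_norm_le (ph (w + h + y * I)) (ph (w + h))
    linarith only [h2, h3]
  have i2 : IntegrableOn (fun y : ℝ => ph (w + h - y * I) * (kap n y : ℂ)) (Ioi 0) := by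
    apply int_kap hn (cont_sub_I hwp).continuousOn (A := ‖ph (w + h)‖)
      (B := Real.pi / Real.sin (Real.pi * (w + h).re))
    intro y hy
    have h2 := norm_ph_sub_le hwp (w := w + h - y * I) (by simp)
    have e1 : (w + h - y * I : ℂ).im - (w + h).im = -y := by simp
    rw [e1, abs_neg, abs_of_pos hy] at h2
    have h3 := norm_sub_norm_le (ph (w + h - y * I)) (ph (w + h))
    linarith only [h2, h3]
  have i3 : IntegrableOn (fun y : ℝ => ph (w - h + y * I) * (kap n y : ℂ)) (Ioi 0) := by
    apply int_kap hn (cont_add_I hwm).continuousOn (A := ‖ph (w - h)‖)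
      (B := Real.pi / Real.sin (Real.pi * (w - h).re))
    intro y hy
    have h2 := norm_ph_sub_le hwm (w := w - h + y * I) (by simp)
    have e1 : (w - h + y * I : ℂ).im - (w - h).im = y := by simp
    rw [e1, abs_of_pos hy] at h2
    have h3 := norm_sub_norm_le (ph (w - h + y * I)) (ph (w - h))
    linarith only [h2, h3]
  have i4 : IntegrableOn (fun y : ℝ => ph (w - h - y * I) * (kap n y : ℂ)) (Ioi 0) := by
    apply int_kap hn (cont_sub_I hwm).continuousOn (A := ‖ph (w - h)‖)
      (B := Real.pi / Real.sin (Real.pi * (w - h).re))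
    intro y hy
    have h2 := norm_ph_sub_le hwm (w := w - h - y * I) (by simp)
    have e1 : (w - h - y * I : ℂ).im - (w - h).im = -y := by simp
    rw [e1, abs_neg, abs_of_pos hy] at h2
    have h3 := norm_sub_norm_le (ph (w - h - y * I)) (ph (w - h))
    linarith only [h2, h3]
  have i5 : IntegrableOn (fun y : ℝ => ph w * (kap n y : ℂ)) (Ioi 0) := by
    apply int_kap hn continuousOn_const (A := ‖ph w‖) (B := 0)
    intro y _
    simp
  -- evaluate the four integrals in the contour formulas
  have s1 : ∫ y in Ioi (0 : ℝ), (ph (w + ((h : ℂ) + y * I)) - ph w) * (kap n y : ℂ) =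
      (∫ y in Ioi (0 : ℝ), ph (w + h + y * I) * (kap n y : ℂ)) -
        ∫ y in Ioi (0 : ℝ), ph w * (kap n y : ℂ) := by
    rw [← integral_sub i1 i5]
    apply integral_congr_ae
    filter_upwards with y
    rw [add_assoc]
    ring
  have s2 : ∫ y in Ioi (0 : ℝ), (ph (w + (((-h : ℝ) : ℂ) + y * I)) - ph w) * (kap n y : ℂ) =
      (∫ y in Ioi (0 : ℝ), ph (w - h + y * I) * (kap n y : ℂ)) -
        ∫ y in Ioi (0 : ℝ), ph w * (kap n y : ℂ) := by
    rw [← integral_sub i3 i5]
    apply integral_congr_ae
    filter_upwards with y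
    have e : w + (((-h : ℝ) : ℂ) + y * I) = w - h + y * I := by
      push_cast
      ring
    rw [e]
    ring
  have s3 : ∫ y in Ioi (0 : ℝ), (ph (w - ((h : ℂ) + y * I)) - ph w) * (kap n y : ℂ) =
      (∫ y in Ioi (0 : ℝ), ph (w - h - y * I) * (kap n y : ℂ)) -
        ∫ y in Ioi (0 : ℝ), ph w * (kap n y : ℂ) := by
    rw [← integral_sub i4 i5]
    apply integral_congr_ae
    filter_upwards with y
    have e : w - ((h : ℂ) + y * I) = w - h - y * I := by ring
    rw [e]
    ring
  have s4 : ∫ y in Ioi (0 : ℝ), (ph (w - (((-h : ℝ) : ℂ) + y * I)) - ph w) * (kap n y : ℂ) =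
      (∫ y in Ioi (0 : ℝ), ph (w + h - y * I) * (kap n y : ℂ)) -
        ∫ y in Ioi (0 : ℝ), ph w * (kap n y : ℂ) := by
    rw [← integral_sub i2 i5]
    apply integral_congr_ae
    filter_upwards with y
    have e : w - (((-h : ℝ) : ℂ) + y * I) = w + h - y * I := by
      push_cast
      ring
    rw [e]
    ring
  rw [s1, s2] at c1
  rw [s3, s4] at c2
  -- the two J values
  have j1 : J n (w + h) = n * I * ((∫ y in Ioi (0 : ℝ), ph (w + h + y * I) * (kap n y : ℂ)) -
      ∫ y in Ioi (0 : ℝ), ph (w + h - y * I) * (kap n y : ℂ)) := by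
    unfold J
    rw [← integral_sub i1 i2]
    congr 1
    apply integral_congr_ae
    filter_upwards with y
    ring
  have j2 : J n (w - h) = n * I * ((∫ y in Ioi (0 : ℝ), ph (w - h + y * I) * (kap n y : ℂ)) -
      ∫ y in Ioi (0 : ℝ), ph (w - h - y * I) * (kap n y : ℂ)) := by
    unfold J
    rw [← integral_sub i3 i4]
    congr 1
    apply integral_congr_ae
    filter_upwards with y
    ring
  -- the sum of the two real integrals
  have hreal : (∫ x in (-h)..h, Vq n (fun u => ph (w + u)) x) +
      (∫ x in (-h)..h, Vq n (fun u => ph (w - u)) x) =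
      Fh (w + h) - Fh (w - h) - 2 * h * ph w := by
    have e1 : (∫ x in (-h)..h, Vq n (fun u => ph (w - u)) x) =
        ∫ x in (-h)..h, Vq n (fun u => ph (w - u)) ((-x : ℝ) : ℂ) := by
      rw [intervalIntegral.integral_comp_neg (fun x : ℝ => Vq n (fun u => ph (w - u)) (x : ℂ))]
      simp
    have hcontV : ∀ (p : ℂ → ℂ) (Ω : Set ℂ), IsOpen Ω → (∀ u : ℂ, |u.re| ≤ 1 / (2 * n) → u ∈ Ω) →
        DifferentiableOn ℂ p Ω → ContinuousOn (fun x : ℝ => Vq n p x) (uIcc (-h) h) := by
      intro p Ω hΩ hsub hp
      apply (Vq_diff hn hΩ hsub hp).continuousOn.comp (by fun_prop)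
      intro x hx
      rw [uIcc_of_le (by linarith only [hh])] at hx
      have : |x| ≤ h := abs_le.mpr hx
      change |((x : ℝ) : ℂ).re| ≤ 1 / (2 * n)
      rw [ofReal_re, ← hhd]
      exact this
    have k1 : IntervalIntegrable (fun x : ℝ => Vq n (fun u => ph (w + u)) x) volume (-h) h := by
      apply ContinuousOn.intervalIntegrable
      apply hcontV _ {u | w + u ∈ strip} (strip_open.preimage (by fun_prop))
      · intro u hu
        rw [abs_le] at hu
        refine ⟨?_, ?_⟩
        · simp only [add_re]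
          linarith only [h0, hu, hu.1]
        · simp only [add_re]
          linarith only [h1, hu, hu.2]
      · intro u hu
        exact ((hasDerivAt_ph hu).comp_const_add w u).differentiableAt.differentiableWithinAt
    have k2 : IntervalIntegrable (fun x : ℝ => Vq n (fun u => ph (w - u)) ((-x : ℝ) : ℂ))
        volume (-h) h := by
      apply ContinuousOn.intervalIntegrable
      have := hcontV (fun u => ph (w - u)) {u | w - u ∈ strip} (strip_open.preimage (by fun_prop))
        (by
          intro u hu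
          rw [abs_le] at hu
          refine ⟨?_, ?_⟩
          · simp only [sub_re]
            linarith only [h0, hu, hu.2]
          · simp only [sub_re]
            linarith only [h1, hu, hu.1])
        (by
          intro u hu
          exact ((hasDerivAt_ph hu).comp_const_sub w u).differentiableAt.differentiableWithinAt)
      apply this.comp (by fun_prop)
      intro x hx
      rw [uIcc_of_le (by linarith only [hh])] at hx ⊢
      exact ⟨by linarith only [hx, hx.2], by linarith only [hx, hx.1]⟩
    rw [e1, ← intervalIntegral.integral_add k1 k2]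
    have e2 : ∫ x in (-h)..h, (Vq n (fun u => ph (w + u)) x +
        Vq n (fun u => ph (w - u)) ((-x : ℝ) : ℂ)) = ∫ x in (-h)..h, (ph (w + x) - ph w) := by
      apply intervalIntegral.integral_congr_ae
      have h0' : ∀ᵐ x : ℝ, x ≠ 0 := by
        simp [ae_iff, measure_singleton]
      filter_upwards [h0'] with x hx0 hx
      rw [uIoc_of_le (by linarith only [hh])] at hx
      have hxc : (x : ℂ) ≠ 0 := by exact_mod_cast hx0
      have hxn : ((-x : ℝ) : ℂ) ≠ 0 := by
        push_cast
        exact neg_ne_zero.mpr hxc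
      rw [Vq_of_ne hxc, Vq_of_ne hxn]
      simp only [add_zero, sub_zero]
      have e3 : w - ((-x : ℝ) : ℂ) = w + x := by
        push_cast
        ring
      rw [e3]
      have n1 : Ep n x ≠ 0 := by
        apply Ep_ne hn _ hxc
        rw [ofReal_re, ← hhd]
        exact abs_le.mpr ⟨hx.1.le, hx.2⟩
      have n2 : Ep n ((-x : ℝ) : ℂ) ≠ 0 := by
        apply Ep_ne hn _ hxn
        rw [ofReal_re, abs_neg, ← hhd]
        exact abs_le.mpr ⟨hx.1.le, hx.2⟩
      have e4 : 1 / Ep n x + 1 / Ep n ((-x : ℝ) : ℂ) = 1 := by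
        rw [div_add_div _ _ n1 n2, div_eq_one_iff_eq (mul_ne_zero n1 n2)]
        unfold Ep
        have e5 : Complex.exp (-(2 * Real.pi * n * I) * x) *
            Complex.exp (-(2 * Real.pi * n * I) * ((-x : ℝ) : ℂ)) = 1 := by
          rw [← Complex.exp_add, ← Complex.exp_zero]
          congr 1
          push_cast
          ring
        linear_combination -e5
      rw [div_eq_mul_one_div, div_eq_mul_one_div (ph (w + x) - ph w) (Ep n ((-x : ℝ) : ℂ)),
        ← mul_add, e4, mul_one]
    have e3 : ∫ x in (-h)..h, (ph (w + x) - ph w) = Fh (w + h) - Fh (w - h) - 2 * h * ph w := by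
      have hd : ∀ x ∈ uIcc (-h) h, HasDerivAt (fun x : ℝ => Fh (w + x) - x * ph w)
          (ph (w + x) - ph w) x := by
        intro x hx
        rw [uIcc_of_le (by linarith only [hh])] at hx
        have hm : w + (x : ℂ) ∈ strip := by
          refine ⟨?_, ?_⟩
          · simp only [add_re, ofReal_re]
            linarith only [h0, hx, hx.1]
          · simp only [add_re, ofReal_re]
            linarith only [h1, hx, hx.2]
        have hx1 : HasDerivAt (fun t : ℝ => ((t : ℝ) : ℂ)) 1 x := Complex.ofRealCLM.hasDerivAt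
        have hx2 : HasDerivAt (fun t : ℝ => w + (t : ℂ)) 1 x := hx1.const_add w
        have hx3 := (hasDerivAt_Fh hm).comp_of_eq x hx2 rfl
        have hx4 := hx3.fun_sub (hx1.mul_const (ph w))
        simpa using hx4
      have hi : IntervalIntegrable (fun x : ℝ => ph (w + x) - ph w) volume (-h) h := by
        apply ContinuousOn.intervalIntegrable
        intro x hx
        rw [uIcc_of_le (by linarith only [hh])] at hx
        have hm : w + (x : ℂ) ∈ strip := by
          refine ⟨?_, ?_⟩
          · simp only [add_re, ofReal_re]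
            linarith only [h0, hx, hx.1]
          · simp only [add_re, ofReal_re]
            linarith only [h1, hx, hx.2]
        apply ContinuousAt.continuousWithinAt
        apply ContinuousAt.sub _ continuousAt_const
        apply ContinuousAt.comp (g := ph) (f := fun x : ℝ => (w + x : ℂ))
        · exact continuousAt_ph hm
        · fun_prop
      rw [intervalIntegral.integral_eq_sub_of_hasDerivAt hd hi]
      push_cast
      rw [← sub_eq_add_neg]
      ring
    rw [e2, e3]
  rw [c1, c2] at hreal
  unfold M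
  rw [j1, j2]
  have hnh : (n : ℂ) * (2 * h) = 1 := by
    rw [hhd]
    push_cast
    have : (n : ℂ) ≠ 0 := by exact_mod_cast hn.ne'
    field_simp
  linear_combination (-(n : ℂ)) * hreal + ph w * hnh

end Pool.Agent.Work.MP_b30479_gt.VOL
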