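import Pool.Agent.Work.MP_b30479_gt.AX.SinP
import Pool.Agent.Work.MP_b30479_gt.VOL.MFun

/-!
# Products of sines through the discrete primitive
-/

namespace Pool.Agent.Work.MP_b30479_gt.VOL

open Complex Set Finset AX

/-- products of `2 sin` along an arithmetic progression of step `1/n` -/
theorem prod_two_sin {n : ℝ} (hn : 0 < n) (ζ : ℂ) (j d : ℕ)
    (h0 : 0 < ((j : ℝ) + 1 / 2) / n + ζ.re) (h1 : ((j : ℝ) + d + 1 / 2) / n + ζ.re < 1) :
    ∏ l ∈ range d, 2 * Complex.sin (Real.pi * (((j : ℂ) + l + 1) / n + ζ)) =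
      Complex.exp (M n (((j : ℂ) + d + 1 / 2) / n + ζ) - M n (((j : ℂ) + 1 / 2) / n + ζ)) := by
  have hnc : (n : ℂ) ≠ 0 := by exact_mod_cast hn.ne'
  induction d with
  | zero => simp
  | succ d ih =>
    have h1' : ((j : ℝ) + d + 1 / 2) / n + ζ.re < 1 := by
      refine lt_of_le_of_lt ?_ h1
      push_cast
      gcongr
      linarith only []
    rw [prod_range_succ, ih h1']
    set w : ℂ := ((j : ℂ) + d + 1) / n + ζ with hw
    have hre : w.re = ((j : ℝ) + d + 1) / n + ζ.re := by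
      have e : w = ((((j : ℝ) + d + 1) / n : ℝ) : ℂ) + ζ := by
        rw [hw]
        push_cast
        ring
      rw [e, add_re, ofReal_re]
    have hd : (0 : ℝ) ≤ d := Nat.cast_nonneg d
    have hw0 : 1 / (2 * n) < w.re := by
      rw [hre]
      have e1 : ((j : ℝ) + d + 1) / n = ((j : ℝ) + 1 / 2) / n + d / n + 1 / (2 * n) := by
        field_simp
        ring
      have h2 : 0 ≤ (d : ℝ) / n := by positivity
      rw [e1]
      linarith only [h0, h2]
    have hw1 : w.re < 1 - 1 / (2 * n) := by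
      rw [hre]
      have e1 : ((j : ℝ) + (d + 1 : ℕ) + 1 / 2) / n = ((j : ℝ) + d + 1) / n + 1 / (2 * n) := by
        push_cast
        field_simp
        ring
      rw [e1] at h1
      linarith only [h1]
    have hs := M_step hn hw0 hw1
    have hws : w ∈ strip := by
      have : 0 < 1 / (2 * n) := by positivity
      exact ⟨by linarith only [hw0, this], by linarith only [hw1, this]⟩
    have e2 : w + ((1 / (2 * n) : ℝ) : ℂ) = ((j : ℂ) + (d + 1 : ℕ) + 1 / 2) / n + ζ := by
      rw [hw]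
      push_cast
      field_simp
      ring
    have e3 : w - ((1 / (2 * n) : ℝ) : ℂ) = ((j : ℂ) + d + 1 / 2) / n + ζ := by
      rw [hw]
      push_cast
      field_simp
      ring
    rw [e2, e3] at hs
    rw [← exp_ph hws, ← hs, ← Complex.exp_add]
    congr 1
    ring

/-- the real value of the primitive at the half-integer points -/
noncomputable def mR (n : ℕ) (m : ℝ) : ℝ := (M n (((m + 1 / 2) / n : ℝ) : ℂ)).re

lemma M_half_pt {n : ℕ} {m : ℝ} (h0 : -(1 / 2) < m) (h1 : m + 1 / 2 < n) :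
    M n (((m + 1 / 2) / n : ℝ) : ℂ) = ((mR n m : ℝ) : ℂ) := by
  have hn : (0 : ℝ) < n := by linarith only [h0, h1]
  apply M_ofReal
  · apply div_pos _ hn
    linarith only [h0]
  · rw [div_lt_one hn]
    exact h1

lemma mR_refl {n : ℕ} (hn : 0 < n) (m : ℝ) : mR n (n - 1 - m) = -mR n m := by
  unfold mR
  have hn' : (n : ℝ) ≠ 0 := by exact_mod_cast hn.ne'
  have e : (((((n : ℝ) - 1 - m + 1 / 2) / n : ℝ)) : ℂ) = 1 - ((((m + 1 / 2) / n : ℝ)) : ℂ) := by
    have e1 : ((n : ℝ) - 1 - m + 1 / 2) / n = 1 - (m + 1 / 2) / n := by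
      field_simp
      ring
    rw [e1]
    push_cast
    ring
  rw [e]
  have h := M_one_sub n ((((m + 1 / 2) / n : ℝ)) : ℂ)
  have h2 := congrArg Complex.re h
  simpa using h2

lemma fS_eq_exp_sub {n m : ℕ} (hm : m < n) : fS n m = Real.exp (mR n m - mR n 0) := by
  have hn : 0 < n := by omega
  have hn' : (0 : ℝ) < n := by exact_mod_cast hn
  have hm' : (m : ℝ) + 1 ≤ n := by exact_mod_cast hm
  have h := prod_two_sin hn' 0 0 m (by
      simp only [zero_re, add_zero, Nat.cast_zero, zero_add]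
      positivity) (by
      simp only [zero_re, add_zero, Nat.cast_zero, zero_add]
      rw [div_lt_one hn']
      linarith only [hm'])
  have e1 : (((0 : ℕ) : ℂ) + (m : ℂ) + 1 / 2) / ((n : ℝ) : ℂ) + 0 =
      ((((m : ℝ) + 1 / 2) / n : ℝ) : ℂ) := by
    push_cast
    ring
  have e2 : (((0 : ℕ) : ℂ) + 1 / 2) / ((n : ℝ) : ℂ) + 0 =
      ((((0 : ℝ) + 1 / 2) / n : ℝ) : ℂ) := by
    push_cast
    ring
  rw [e1, e2, M_half_pt (by have := Nat.cast_nonneg (α := ℝ) m; linarith only []) (by linarith only [hm']),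
    M_half_pt (by norm_num) (by
      have : (1 : ℝ) ≤ n := by exact_mod_cast hn
      linarith only [hn', hm']), ← Complex.ofReal_sub, ← Complex.ofReal_exp] at h
  have h3 : ((fS n m : ℝ) : ℂ) = ((Real.exp (mR n m - mR n 0) : ℝ) : ℂ) := by
    rw [← h]
    unfold fS
    rw [Complex.ofReal_prod]
    apply Finset.prod_congr rfl
    intro l _
    push_cast
    congr 2
    ring
  exact_mod_cast h3

lemma exp_neg_mR_zero {n : ℕ} (hn : 0 < n) : Real.exp (-mR n 0) = √(n : ℝ) := by
  have h1 := fS_eq_exp_sub (n := n) (m := n - 1) (by omega)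
  have h2 := fS_refl (n := n) (m := 0) hn
  have h3 : fS n 0 = 1 := by simp [fS]
  rw [h3, one_mul, Nat.sub_zero] at h2
  rw [h2] at h1
  have h4 : mR n ((n - 1 : ℕ) : ℝ) = -mR n 0 := by
    have := mR_refl hn 0
    rw [Nat.cast_sub (by omega), Nat.cast_one, ← this]
    congr 1
    ring
  rw [h4] at h1
  have h5 : (n : ℝ) = Real.exp (-mR n 0) ^ 2 := by
    rw [h1, ← Real.exp_nat_mul]
    congr 1
    push_cast
    ring
  rw [h5, Real.sqrt_sq (Real.exp_pos _).le]

/-- the exact formula `f(m) = √n exp(M((m+1/2)/n))` -/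
theorem fS_eq {n m : ℕ} (hm : m < n) : fS n m = √(n : ℝ) * Real.exp (mR n m) := by
  rw [fS_eq_exp_sub hm, sub_eq_add_neg, Real.exp_add, exp_neg_mR_zero (by omega), mul_comm]

/-- complex form -/
theorem fS_eq_cexp {n m : ℕ} (hm : m < n) :
    ((fS n m : ℝ) : ℂ) = ((√(n : ℝ) : ℝ) : ℂ) * Complex.exp (M n ((((m : ℝ) + 1 / 2) / n : ℝ) : ℂ)) := by
  have hm' : (m : ℝ) + 1 ≤ n := by exact_mod_cast hm
  rw [fS_eq hm, M_half_pt (by have := Nat.cast_nonneg (α := ℝ) m; linarith only []) (by linarith only [hm'])]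
  push_cast
  rfl

/-- `f(k)/f(j)` as an exponential -/
theorem fS_div {n j k : ℕ} (hj : j < n) (hk : k < n) :
    fS n k / fS n j = Real.exp (mR n k - mR n j) := by
  have hs : 0 < √(n : ℝ) := Real.sqrt_pos.mpr (by
    have : 0 < n := by omega
    exact_mod_cast this)
  rw [fS_eq hj, fS_eq hk, Real.exp_sub, mul_div_mul_left _ _ hs.ne']

end Pool.Agent.Work.MP_b30479_gt.VOL
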