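import Pool.Agent.Work.MP_b30479_gt.VOL.Ring

/-!
# Existence and uniqueness of the saddle point
-/

namespace Pool.Agent.Work.MP_b30479_gt.VOL

set_option linter.unusedSimpArgs false

open Complex Set

variable {m : ℕ}

/-- the two neighbours of a run: `∑ ∂_ζ R(α_j, ζ_i)` over the hinges `j` at the run `i` -/
noncomputable def Sz (α : Fin m → ℂ) (ζ : Fin (m + 1) → ℂ) (i : Fin (m + 1)) : ℂ :=
  (if h : i.val < m then Rz (α ⟨i.val, h⟩) (ζ i) else 0) +
    (if h : 0 < i.val then Rz (α ⟨i.val - 1, by omega⟩) (ζ i) else 0)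

/-- critical points of the potential -/
structure IsCrit (a ε : Fin (m + 1) → ℝ) (α : Fin m → ℂ) (ζ : Fin (m + 1) → ℂ) : Prop where
  ha : ∀ j, Ra (α j) (ζ j.castSucc) + Ra (α j) (ζ j.succ) = 0
  hz : ∀ i, 2 * Real.pi * I * ε i * (a i * ζ i + 1) + Sz α ζ i = 0

/-- the potential -/
noncomputable def TT (a ε : Fin (m + 1) → ℝ) (α : Fin m → ℂ) (ζ : Fin (m + 1) → ℂ) : ℂ :=
  ∑ i, ε i * (Real.pi * I * a i * ζ i ^ 2 + 2 * Real.pi * I * ζ i) +
    ∑ j, (Rc (α j) (ζ (Fin.castSucc j)) + Rc (α j) (ζ (Fin.succ j)))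

/-- the polydisc -/
def poly (m : ℕ) : Set ((Fin m → ℂ) × (Fin (m + 1) → ℂ)) :=
  {x | (∀ j, x.1 j ∈ cb (1 / 4)) ∧ ∀ i, x.2 i ∈ cb 0}

lemma isClosed_poly (m : ℕ) : IsClosed (poly m) := by
  have h1 : IsClosed {x : (Fin m → ℂ) × (Fin (m + 1) → ℂ) | ∀ j, x.1 j ∈ cb (1 / 4)} := by
    have e : {x : (Fin m → ℂ) × (Fin (m + 1) → ℂ) | ∀ j, x.1 j ∈ cb (1 / 4)} =
        ⋂ j, {x | x.1 j ∈ cb (1 / 4)} := by
      ext x
      simp
    rw [e]
    apply isClosed_iInter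
    intro j
    exact Metric.isClosed_closedBall.preimage
      (f := fun x : (Fin m → ℂ) × (Fin (m + 1) → ℂ) => x.1 j) (by fun_prop)
  have h2 : IsClosed {x : (Fin m → ℂ) × (Fin (m + 1) → ℂ) | ∀ i, x.2 i ∈ cb 0} := by
    have e : {x : (Fin m → ℂ) × (Fin (m + 1) → ℂ) | ∀ i, x.2 i ∈ cb 0} =
        ⋂ i, {x | x.2 i ∈ cb 0} := by
      ext x
      simp
    rw [e]
    apply isClosed_iInter
    intro i
    exact Metric.isClosed_closedBall.preimage
      (f := fun x : (Fin m → ℂ) × (Fin (m + 1) → ℂ) => x.2 i) (by fun_prop)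
  exact h1.inter h2

/-- the contraction -/
noncomputable def Phi (a ε : Fin (m + 1) → ℝ) (x : (Fin m → ℂ) × (Fin (m + 1) → ℂ)) :
    (Fin m → ℂ) × (Fin (m + 1) → ℂ) :=
  (fun j => x.1 j + (1 / (8 * Real.pi)) *
      (Ra (x.1 j) (x.2 j.castSucc) + Ra (x.1 j) (x.2 j.succ)),
    fun i => -(1 / a i) * (1 + 1 / (2 * Real.pi * I * ε i) * Sz x.1 x.2 i))

lemma Sz_lip {α α' : Fin m → ℂ} {ζ ζ' : Fin (m + 1) → ℂ} (h : (α, ζ) ∈ poly m)
    (h' : (α', ζ') ∈ poly m) {d : ℝ} (h1 : ∀ j, ‖α' j - α j‖ ≤ d) (h2 : ∀ i, ‖ζ' i - ζ i‖ ≤ d)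
    (i : Fin (m + 1)) : ‖Sz α' ζ' i - Sz α ζ i‖ ≤ 6 * Real.pi * d := by
  have hpi := Real.pi_pos
  have hd : 0 ≤ d := (norm_nonneg _).trans (h2 i)
  unfold Sz
  have b1 : ‖(if h : i.val < m then Rz (α' ⟨i.val, h⟩) (ζ' i) else 0) -
      (if h : i.val < m then Rz (α ⟨i.val, h⟩) (ζ i) else 0)‖ ≤ 3 * Real.pi * d := by
    split_ifs with hi
    · exact Rz_lip (h.1 _) (h.2 _) (h'.1 _) (h'.2 _) (h1 _) (h2 _)
    · simp
      positivity
  have b2 : ‖(if h : 0 < i.val then Rz (α' ⟨i.val - 1, by omega⟩) (ζ' i) else 0) -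
      (if h : 0 < i.val then Rz (α ⟨i.val - 1, by omega⟩) (ζ i) else 0)‖ ≤ 3 * Real.pi * d := by
    split_ifs with hi
    · exact Rz_lip (h.1 _) (h.2 _) (h'.1 _) (h'.2 _) (h1 _) (h2 _)
    · simp
      positivity
  have e := norm_add_le
    ((if h : i.val < m then Rz (α' ⟨i.val, h⟩) (ζ' i) else 0) -
      (if h : i.val < m then Rz (α ⟨i.val, h⟩) (ζ i) else 0))
    ((if h : 0 < i.val then Rz (α' ⟨i.val - 1, by omega⟩) (ζ' i) else 0) -
      (if h : 0 < i.val then Rz (α ⟨i.val - 1, by omega⟩) (ζ i) else 0))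
  rw [add_sub_add_comm]
  linarith

lemma center_mem (m : ℕ) : ((fun _ => 1 / 4, fun _ => 0) : (Fin m → ℂ) × (Fin (m + 1) → ℂ)) ∈
    poly m := by
  refine ⟨fun j => ?_, fun i => ?_⟩
  · exact Metric.mem_closedBall_self (by norm_num)
  · exact Metric.mem_closedBall_self (by norm_num)

lemma Sz_center (i : Fin (m + 1)) : Sz (fun _ : Fin m => (1 / 4 : ℂ)) (fun _ => 0) i = 0 := by
  unfold Sz
  split_ifs <;> simp [Rz_zero]

lemma mem_cb_zero {z : ℂ} : z ∈ cb 0 ↔ ‖z‖ ≤ 1 / 200 := by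
  unfold cb
  rw [Metric.mem_closedBall, dist_zero_right]

lemma mem_cb_quarter {z : ℂ} : z ∈ cb (1 / 4) ↔ ‖z - 1 / 4‖ ≤ 1 / 200 := by
  unfold cb
  rw [Metric.mem_closedBall, dist_eq_norm]

lemma Sz_bound {α : Fin m → ℂ} {ζ : Fin (m + 1) → ℂ} (h : (α, ζ) ∈ poly m) (i : Fin (m + 1)) :
    ‖Sz α ζ i‖ ≤ 6 * Real.pi * ‖ζ i‖ := by
  have hpi := Real.pi_pos
  have key : ∀ β ∈ cb (1 / 4), ‖Rz β (ζ i)‖ ≤ 3 * Real.pi * ‖ζ i‖ := by
    intro β hβ
    have h0 : (0 : ℂ) ∈ cb 0 := Metric.mem_closedBall_self (by norm_num)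
    have := Rz_lip hβ h0 hβ (h.2 i) (d := ‖ζ i‖) (by simp) (by simp)
    rw [Rz_zero, sub_zero] at this
    exact this
  unfold Sz
  refine (norm_add_le _ _).trans ?_
  have b1 : ‖(if h : i.val < m then Rz (α ⟨i.val, h⟩) (ζ i) else 0)‖ ≤
      3 * Real.pi * ‖ζ i‖ := by
    split_ifs with hi
    · exact key _ (h.1 _)
    · simp
      positivity
  have b2 : ‖(if h : 0 < i.val then Rz (α ⟨i.val - 1, by omega⟩) (ζ i) else 0)‖ ≤
      3 * Real.pi * ‖ζ i‖ := by
    split_ifs with hi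
    · exact key _ (h.1 _)
    · simp
      positivity
  linarith

lemma norm_eps {e : ℝ} (he : e = 1 ∨ e = -1) : ‖(1 / (2 * Real.pi * I * e) : ℂ)‖ =
    1 / (2 * Real.pi) := by
  have hpi := Real.pi_pos
  rw [norm_div, norm_one, norm_mul, norm_mul, norm_mul, Complex.norm_I, Complex.norm_real,
    Complex.norm_real, Complex.norm_ofNat, Real.norm_of_nonneg hpi.le]
  rcases he with h | h <;> simp [h]

lemma Phi_lip {a ε : Fin (m + 1) → ℝ} (ha : ∀ i, 300 ≤ a i) (hε : ∀ i, ε i = 1 ∨ ε i = -1)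
    {x y : (Fin m → ℂ) × (Fin (m + 1) → ℂ)} (hx : x ∈ poly m) (hy : y ∈ poly m) :
    dist (Phi a ε x) (Phi a ε y) ≤ 1 / 2 * dist x y := by
  have hpi := Real.pi_pos
  set d := dist x y with hd
  have hd0 : 0 ≤ d := dist_nonneg
  have h1 : ∀ j, ‖x.1 j - y.1 j‖ ≤ d := fun j => by
    rw [← dist_eq_norm]
    exact (dist_le_pi_dist x.1 y.1 j).trans (le_max_left _ _)
  have h2 : ∀ i, ‖x.2 i - y.2 i‖ ≤ d := fun i => by
    rw [← dist_eq_norm]
    exact (dist_le_pi_dist x.2 y.2 i).trans (le_max_right _ _)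
  rw [Prod.dist_eq]
  apply max_le
  · rw [dist_pi_le_iff (by positivity)]
    intro j
    rw [dist_eq_norm]
    have b1 := Ra_lip (hy.1 j) (hy.2 j.castSucc) (hx.1 j) (hx.2 j.castSucc) (h1 j) (h2 _)
    have b2 := Ra_lip (hy.1 j) (hy.2 j.succ) (hx.1 j) (hx.2 j.succ) (h1 j) (h2 _)
    have hpic : (Real.pi : ℂ) ≠ 0 := by exact_mod_cast hpi.ne'
    have e : (Phi a ε x).1 j - (Phi a ε y).1 j = (1 / (8 * Real.pi)) *
        (((Ra (x.1 j) (x.2 j.castSucc) + 4 * Real.pi * x.1 j) -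
          (Ra (y.1 j) (y.2 j.castSucc) + 4 * Real.pi * y.1 j)) +
        ((Ra (x.1 j) (x.2 j.succ) + 4 * Real.pi * x.1 j) -
          (Ra (y.1 j) (y.2 j.succ) + 4 * Real.pi * y.1 j))) := by
      unfold Phi
      simp only
      field_simp
      ring
    rw [e, norm_mul]
    have e2 : ‖(1 / (8 * Real.pi) : ℂ)‖ = 1 / (8 * Real.pi) := by
      rw [norm_div, norm_one, norm_mul, Complex.norm_ofNat, Complex.norm_real,
        Real.norm_of_nonneg hpi.le]
    rw [e2]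
    have b3 := (norm_add_le ((Ra (x.1 j) (x.2 j.castSucc) + 4 * Real.pi * x.1 j) -
          (Ra (y.1 j) (y.2 j.castSucc) + 4 * Real.pi * y.1 j))
        ((Ra (x.1 j) (x.2 j.succ) + 4 * Real.pi * x.1 j) -
          (Ra (y.1 j) (y.2 j.succ) + 4 * Real.pi * y.1 j))).trans (add_le_add b1 b2)
    calc _ ≤ 1 / (8 * Real.pi) * (3 / 2 * Real.pi * d + 3 / 2 * Real.pi * d) :=
          mul_le_mul_of_nonneg_left b3 (by positivity)
      _ = 3 / 8 * d := by
          field_simp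
          ring
      _ ≤ 1 / 2 * d := by nlinarith
  · rw [dist_pi_le_iff (by positivity)]
    intro i
    rw [dist_eq_norm]
    have b := Sz_lip (α := y.1) (α' := x.1) (ζ := y.2) (ζ' := x.2) hy hx h1 h2 i
    have hai : 0 < a i := by linarith [ha i]
    have e : (Phi a ε x).2 i - (Phi a ε y).2 i = -(1 / a i : ℂ) *
        ((1 / (2 * Real.pi * I * ε i)) * (Sz x.1 x.2 i - Sz y.1 y.2 i)) := by
      unfold Phi
      simp only
      ring
    rw [e, norm_mul, norm_mul, norm_eps (hε i), norm_neg, norm_div, norm_one, Complex.norm_real,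
      Real.norm_of_nonneg hai.le]
    calc 1 / a i * (1 / (2 * Real.pi) * ‖Sz x.1 x.2 i - Sz y.1 y.2 i‖) ≤
        1 / 300 * (1 / (2 * Real.pi) * (6 * Real.pi * d)) := by
          apply mul_le_mul
          · exact one_div_le_one_div_of_le (by norm_num) (ha i)
          · exact mul_le_mul_of_nonneg_left b (by positivity)
          · positivity
          · norm_num
      _ = 1 / 100 * d := by
          field_simp
          ring
      _ ≤ 1 / 2 * d := by nlinarith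

lemma Phi_maps {a ε : Fin (m + 1) → ℝ} (ha : ∀ i, 300 ≤ a i) (hε : ∀ i, ε i = 1 ∨ ε i = -1) :
    MapsTo (Phi a ε) (poly m) (poly m) := by
  intro x hx
  have hpi := Real.pi_pos
  refine ⟨fun j => ?_, fun i => ?_⟩
  · rw [mem_cb_quarter]
    have hc := (center_mem m)
    have h1 := Phi_lip ha hε hx hc
    have h2 : ‖(Phi a ε x).1 j - (Phi a ε (fun _ => 1 / 4, fun _ => 0)).1 j‖ ≤
        dist (Phi a ε x) (Phi a ε (fun _ => 1 / 4, fun _ => 0)) := by
      rw [← dist_eq_norm]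
      exact (dist_le_pi_dist (Phi a ε x).1 _ j).trans (le_max_left _ _)
    have h3 : (Phi a ε (fun _ => 1 / 4, fun _ => 0)).1 j = 1 / 4 := by
      unfold Phi
      simp only
      rw [Ra_quarter]
      ring
    rw [h3] at h2
    have h4 : dist x ((fun _ => 1 / 4, fun _ => 0) : (Fin m → ℂ) × (Fin (m + 1) → ℂ)) ≤
        1 / 200 := by
      rw [Prod.dist_eq]
      apply max_le
      · rw [dist_pi_le_iff (by norm_num)]
        intro j
        exact hx.1 j
      · rw [dist_pi_le_iff (by norm_num)]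
        intro i
        exact hx.2 i
    linarith
  · rw [mem_cb_zero]
    have hai : 0 < a i := by linarith [ha i]
    have b := Sz_bound (α := x.1) (ζ := x.2) hx i
    have hz : ‖x.2 i‖ ≤ 1 / 200 := mem_cb_zero.mp (hx.2 i)
    have e : (Phi a ε x).2 i = -(1 / a i : ℂ) * (1 + 1 / (2 * Real.pi * I * ε i) * Sz x.1 x.2 i) :=
      rfl
    rw [e, norm_mul, norm_neg, norm_div, norm_one, Complex.norm_real,
      Real.norm_of_nonneg hai.le]
    have h1 : ‖1 + 1 / (2 * Real.pi * I * ε i) * Sz x.1 x.2 i‖ ≤ 1 + 3 * ‖x.2 i‖ := by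
      refine (norm_add_le _ _).trans ?_
      rw [norm_one, norm_mul, norm_eps (hε i)]
      have : 1 / (2 * Real.pi) * ‖Sz x.1 x.2 i‖ ≤ 1 / (2 * Real.pi) * (6 * Real.pi * ‖x.2 i‖) :=
        mul_le_mul_of_nonneg_left b (by positivity)
      have e2 : 1 / (2 * Real.pi) * (6 * Real.pi * ‖x.2 i‖) = 3 * ‖x.2 i‖ := by
        field_simp
        ring
      rw [e2] at this
      linarith
    calc 1 / a i * ‖1 + 1 / (2 * Real.pi * I * ε i) * Sz x.1 x.2 i‖ ≤ 1 / 300 * (1 + 3 / 200) := by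
          apply mul_le_mul
          · exact one_div_le_one_div_of_le (by norm_num) (ha i)
          · linarith
          · positivity
          · norm_num
      _ ≤ 1 / 200 := by norm_num

lemma fixed_iff {a ε : Fin (m + 1) → ℝ} (ha : ∀ i, 300 ≤ a i) (hε : ∀ i, ε i = 1 ∨ ε i = -1)
    (x : (Fin m → ℂ) × (Fin (m + 1) → ℂ)) : Phi a ε x = x ↔ IsCrit a ε x.1 x.2 := by
  have hpi := Real.pi_pos
  have hpic : (Real.pi : ℂ) ≠ 0 := by exact_mod_cast hpi.ne'
  have e1 : ∀ j, (Phi a ε x).1 j = x.1 j ↔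
      Ra (x.1 j) (x.2 j.castSucc) + Ra (x.1 j) (x.2 j.succ) = 0 := by
    intro j
    have e : (Phi a ε x).1 j = x.1 j + (1 / (8 * Real.pi)) *
      (Ra (x.1 j) (x.2 j.castSucc) + Ra (x.1 j) (x.2 j.succ)) := rfl
    rw [e, add_eq_left]
    constructor
    · intro h
      exact (mul_eq_zero.mp h).resolve_left (by simp [hpic])
    · intro h
      rw [h, mul_zero]
  have e2 : ∀ i, (Phi a ε x).2 i = x.2 i ↔
      2 * Real.pi * I * ε i * (a i * x.2 i + 1) + Sz x.1 x.2 i = 0 := by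
    intro i
    have hai : (a i : ℂ) ≠ 0 := by
      have : a i ≠ 0 := by linarith [ha i]
      exact_mod_cast this
    have hei : (ε i : ℂ) ≠ 0 := by
      rcases hε i with h | h <;> simp [h]
    have e : (Phi a ε x).2 i = -(1 / a i) * (1 + 1 / (2 * Real.pi * I * ε i) * Sz x.1 x.2 i) := rfl
    rw [e]
    have hI := Complex.I_ne_zero
    constructor
    · intro h
      rw [← h]
      field_simp
      ring
    · intro h
      have h3 : Sz x.1 x.2 i = -(2 * Real.pi * I * ε i * (a i * x.2 i + 1)) := by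
        linear_combination h
      rw [h3]
      field_simp
      ring
  constructor
  · intro h
    refine ⟨fun j => (e1 j).mp (by rw [h]), fun i => (e2 i).mp (by rw [h])⟩
  · intro h
    apply Prod.ext
    · funext j
      exact (e1 j).mpr (h.ha j)
    · funext i
      exact (e2 i).mpr (h.hz i)

/-- existence of the saddle point -/
theorem exists_crit {a ε : Fin (m + 1) → ℝ} (ha : ∀ i, 300 ≤ a i)
    (hε : ∀ i, ε i = 1 ∨ ε i = -1) : ∃ x ∈ poly m, IsCrit a ε x.1 x.2 := by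
  have hc : IsComplete (poly m) := (isClosed_poly m).isComplete
  have hm := Phi_maps ha hε
  have hk : ContractingWith (1 / 2) (hm.restrict (Phi a ε) (poly m) (poly m)) := by
    refine ⟨by norm_num, ?_⟩
    apply LipschitzWith.of_dist_le_mul
    intro x y
    have h1 := Phi_lip ha hε x.2 y.2
    have e : (((1 / 2 : NNReal)) : ℝ) = 1 / 2 := by norm_num
    rw [e]
    exact h1
  obtain ⟨y, hy, hf, _⟩ := hk.exists_fixedPoint' hc hm (center_mem m) (edist_ne_top _ _)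
  exact ⟨y, hy, (fixed_iff ha hε y).mp hf⟩

/-- uniqueness of the saddle point in the polydisc -/
theorem crit_unique {a ε : Fin (m + 1) → ℝ} (ha : ∀ i, 300 ≤ a i)
    (hε : ∀ i, ε i = 1 ∨ ε i = -1) {x y : (Fin m → ℂ) × (Fin (m + 1) → ℂ)} (hx : x ∈ poly m)
    (hy : y ∈ poly m) (cx : IsCrit a ε x.1 x.2) (cy : IsCrit a ε y.1 y.2) : x = y := by
  have h := Phi_lip ha hε hx hy
  rw [(fixed_iff ha hε x).mpr cx, (fixed_iff ha hε y).mpr cy] at h
  have h2 : dist x y ≤ 0 := by linarith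
  exact dist_le_zero.mp h2

end Pool.Agent.Work.MP_b30479_gt.VOL
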